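import Mathlib

/-! Sum of the description costs over all tests. -/

open Finset

namespace Pool.Agent.H72.CP

lemma ujle (j0 j u : ℕ) (hu : u < 2 ^ (j - j0)) : ((u : ℝ) + j + 1) ≤ 2 * 2 ^ j := by
  have h1 : u + 1 ≤ 2 ^ (j - j0) := hu
  have h2 : (2 : ℕ) ^ (j - j0) ≤ 2 ^ j := Nat.pow_le_pow_right (by norm_num) (Nat.sub_le _ _)
  have h3 : j < 2 ^ j := Nat.lt_two_pow_self
  have h4 : u + j + 1 ≤ 2 * 2 ^ j := by omega
  exact_mod_cast h4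

/-- geometric sum -/
lemma geo (j0 Jt : ℕ) : ∑ j ∈ Finset.Icc j0 Jt, ((1 : ℝ) / 2) ^ j ≤ 2 * (1 / 2) ^ j0 := by
  have h : ∀ n : ℕ, ∑ j ∈ Finset.Ico j0 (j0 + n), ((1 : ℝ) / 2) ^ j
      = 2 * (1 / 2) ^ j0 - 2 * (1 / 2) ^ (j0 + n) := by
    intro n
    induction n with
    | zero => simp
    | succ n ih =>
      rw [← Nat.add_assoc, Finset.sum_Ico_succ_top (by omega), ih, pow_succ]
      ring
  by_cases hj : j0 ≤ Jt
  · have h1 : Finset.Icc j0 Jt = Finset.Ico j0 (j0 + (Jt + 1 - j0)) := by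
      ext x
      rw [Finset.mem_Icc, Finset.mem_Ico]
      omega
    rw [h1, h]
    have : (0 : ℝ) < (1 / 2) ^ (j0 + (Jt + 1 - j0)) := by positivity
    linarith
  · rw [Finset.Icc_eq_empty hj, Finset.sum_empty]
    positivity

/-- first sum, one level -/
lemma level_one (j0 j : ℕ) :
    ∑ u ∈ Finset.range (2 ^ (j - j0)), ((u : ℝ) + j + 1) * (1 / 8) ^ (3 * j)
      ≤ 2 * (2 : ℝ) ^ (j - j0) * (1 / 2) ^ (8 * j) := by
  have h1 : ∀ u ∈ Finset.range (2 ^ (j - j0)), ((u : ℝ) + j + 1) * (1 / 8) ^ (3 * j)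
      ≤ 2 * 2 ^ j * (1 / 8) ^ (3 * j) := by
    intro u hu
    exact mul_le_mul_of_nonneg_right (ujle j0 j u (Finset.mem_range.1 hu)) (by positivity)
  refine (Finset.sum_le_sum h1).trans ?_
  rw [Finset.sum_const, Finset.card_range, nsmul_eq_mul]
  push_cast
  have h2 : (2 : ℝ) ^ j * (1 / 8) ^ (3 * j) = (1 / 2) ^ (8 * j) := by
    rw [pow_mul, pow_mul, ← mul_pow]
    congr 1
    norm_num
  rw [← h2]
  apply le_of_eq
  ring

/-- second sum, one level -/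
lemma level_two (j0 j : ℕ) :
    ∑ u ∈ Finset.range (2 ^ (j - j0)), ((u : ℝ) + j + 1) ^ 2 * (1 / 2) ^ (4 * j)
      ≤ 4 * (2 : ℝ) ^ (j - j0) * (1 / 2) ^ (2 * j) := by
  have h1 : ∀ u ∈ Finset.range (2 ^ (j - j0)), ((u : ℝ) + j + 1) ^ 2 * (1 / 2) ^ (4 * j)
      ≤ (2 * 2 ^ j) ^ 2 * (1 / 2) ^ (4 * j) := by
    intro u hu
    refine mul_le_mul_of_nonneg_right ?_ (by positivity)
    exact pow_le_pow_left₀ (by positivity) (ujle j0 j u (Finset.mem_range.1 hu)) 2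
  refine (Finset.sum_le_sum h1).trans ?_
  rw [Finset.sum_const, Finset.card_range, nsmul_eq_mul]
  push_cast
  have h2 : ((2 : ℝ) ^ j) ^ 2 * (1 / 2) ^ (4 * j) = (1 / 2) ^ (2 * j) := by
    rw [← pow_mul, mul_comm j 2, pow_mul, pow_mul, pow_mul, ← mul_pow]
    congr 1
    norm_num
  rw [mul_pow, mul_assoc ((2 : ℝ) ^ 2), h2]
  apply le_of_eq
  ring

/-- All tests together: `12 * 4 ^ (-j0)`. -/
theorem cost_sum (j0 Jt : ℕ) :
    ∑ j ∈ Finset.Icc j0 Jt, ∑ u ∈ Finset.range (2 ^ (j - j0)),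
      (((u : ℝ) + j + 1) * (1 / 8) ^ (3 * j) + ((u : ℝ) + j + 1) ^ 2 * (1 / 2) ^ (4 * j))
      ≤ 12 * (1 / 4) ^ j0 := by
  have h1 : ∀ j ∈ Finset.Icc j0 Jt, ∑ u ∈ Finset.range (2 ^ (j - j0)),
      (((u : ℝ) + j + 1) * (1 / 8) ^ (3 * j) + ((u : ℝ) + j + 1) ^ 2 * (1 / 2) ^ (4 * j))
      ≤ 6 * (1 / 2) ^ j0 * (1 / 2) ^ j := by
    intro j hj
    rw [Finset.sum_add_distrib]
    have hj0 : j0 ≤ j := (Finset.mem_Icc.1 hj).1
    have h2 := level_one j0 j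
    have h3 := level_two j0 j
    have h4 : (2 : ℝ) ^ (j - j0) = 2 ^ j * (1 / 2) ^ j0 := by
      rw [pow_sub₀ _ (by norm_num) hj0, one_div, inv_pow]
    have h5 : (2 : ℝ) ^ j * (1 / 2) ^ (8 * j) ≤ (1 / 2) ^ j := by
      rw [pow_mul, ← mul_pow]
      exact pow_le_pow_left₀ (by positivity) (by norm_num) j
    have h6 : (2 : ℝ) ^ j * (1 / 2) ^ (2 * j) = (1 / 2) ^ j := by
      rw [pow_mul, ← mul_pow]
      congr 1
      norm_num
    rw [h4] at h2 h3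
    have h7 : (0 : ℝ) < (1 / 2) ^ j0 := by positivity
    have h8 : 2 * ((2 : ℝ) ^ j * (1 / 2) ^ j0) * (1 / 2) ^ (8 * j)
        = 2 * (1 / 2) ^ j0 * ((2 : ℝ) ^ j * (1 / 2) ^ (8 * j)) := by ring
    have h9 : 4 * ((2 : ℝ) ^ j * (1 / 2) ^ j0) * (1 / 2) ^ (2 * j)
        = 4 * (1 / 2) ^ j0 * ((2 : ℝ) ^ j * (1 / 2) ^ (2 * j)) := by ring
    rw [h8] at h2
    rw [h9, h6] at h3
    have h10 := mul_le_mul_of_nonneg_left h5 (by positivity : (0 : ℝ) ≤ 2 * (1 / 2) ^ j0)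
    linarith
  refine (Finset.sum_le_sum h1).trans ?_
  rw [← Finset.mul_sum]
  refine (mul_le_mul_of_nonneg_left (geo j0 Jt) (by positivity)).trans (le_of_eq ?_)
  have h2 : ((1 : ℝ) / 4) ^ j0 = (1 / 2) ^ j0 * (1 / 2) ^ j0 := by
    rw [← mul_pow]
    congr 1
    norm_num
  rw [h2]
  ring

end Pool.Agent.H72.CP
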