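import Pool.Agent.H98.CP.St
import Pool.Agent.H72.CP.CostSum

set_option autoImplicit false

/-! The sum of the costs of all tests. -/

open Finset

namespace Pool.Agent.H72.CP

open Pool.Agent.H98.CP H95.CP

lemma sq_le_pow (j : ℕ) : (j + 2) ^ 2 ≤ 5 * 2 ^ j := by
  induction j with
  | zero => norm_num
  | succ n ih =>
    rcases Nat.eq_zero_or_pos n with h | h
    · subst h
      norm_num
    · have h1 : (n + 1 + 2) ^ 2 ≤ 2 * (n + 2) ^ 2 := by nlinarith
      have h2 : 2 ^ (n + 1) = 2 * 2 ^ n := by ring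
      rw [h2]
      linarith

lemma big_ev (j0 M : ℕ) (hM : 2 ^ (j0 + 20) ≤ M) : Big j0 M := by
  unfold Big
  have h1 : j0 + 20 < Nat.size M := Nat.lt_size.2 hM
  set s := Nat.size M with hs
  have h2 : 2 ^ (s - 1) ≤ M := by
    apply Nat.lt_size.1
    omega
  have h3 : ∀ k : ℕ, 2000 * (k + 18) ≤ 2 ^ (k + 17) := by
    intro k
    induction k with
    | zero => norm_num
    | succ k ih =>
      have : 2 ^ (k + 1 + 17) = 2 * 2 ^ (k + 17) := by
        rw [show k + 1 + 17 = (k + 17) + 1 by ring, pow_succ]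
        ring
      omega
  have h4 := h3 (s - 18)
  have h5 : s - 18 + 18 = s := by omega
  have h6 : s - 18 + 17 = s - 1 := by omega
  rw [h5, h6] at h4
  omega

/-- constant in the cost of a test -/
noncomputable def KC : ℝ := 8 * 576 * 300 * 404 * 25 + 960 * 404

lemma ctest_le (A : ℝ) (hA : 1 ≤ A) (M u j : ℕ) :
    ctest A M u j ≤ KC * A * (M * 8 ^ M) *
      (((u : ℝ) + j + 1) * (1 / 8) ^ (3 * j) + ((u : ℝ) + j + 1) ^ 2 * (1 / 2) ^ (4 * j))
      + 5 * M * 4 ^ M := by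
  unfold ctest
  set P : ℝ := (u : ℝ) + j + 1 with hP
  set N : ℝ := (8 : ℝ) ^ M with hN
  have hP1 : 1 ≤ P := by
    have h1 : (0 : ℝ) ≤ u := Nat.cast_nonneg _
    have h2 : (0 : ℝ) ≤ j := Nat.cast_nonneg _
    rw [hP]
    linarith
  have hN1 : 1 ≤ N := one_le_pow₀ (by norm_num)
  have h4 : (1 : ℝ) ≤ 4 ^ M := one_le_pow₀ (by norm_num)
  have hM0 : (0 : ℝ) ≤ M := Nat.cast_nonneg _
  have hcex : cex M u j + 4 ≤ 404 * (N * P) := by
    unfold cex
    rw [← hP, ← hN]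
    nlinarith [mul_le_mul hN1 hP1 zero_le_one (by positivity : (0 : ℝ) ≤ N)]
  have hcin : cin M u j + 4 ≤ N * P * (1 / 8) ^ (3 * j) + 5 * 4 ^ M := by
    unfold cin
    rw [← hP, ← hN, one_div_pow, mul_one_div]
    linarith
  have hcv : CV j / 8 ^ (2 * j) ≤ 576 * 25 * (1 / 2) ^ (4 * j) := by
    unfold CV
    have h1 : ((j : ℝ) + 2) ^ 2 ≤ 5 * 2 ^ j := by exact_mod_cast sq_le_pow j
    have h2 : (24 * ((j : ℝ) + 2) ^ 2) ^ 2 ≤ (24 * (5 * 2 ^ j)) ^ 2 :=
      pow_le_pow_left₀ (by positivity) (by linarith) 2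
    rw [one_div_pow, mul_one_div, div_le_div_iff₀ (by positivity) (by positivity)]
    have h3 : (24 * (5 * (2 : ℝ) ^ j)) ^ 2 = 576 * 25 * 4 ^ j := by
      have : (4 : ℝ) ^ j = (2 ^ j) ^ 2 := by
        rw [← pow_mul, mul_comm j 2, pow_mul]
        norm_num
      rw [this]
      ring
    rw [h3] at h2
    have h5 : (8 : ℝ) ^ (2 * j) = 64 ^ j := by
      rw [pow_mul]
      norm_num
    have h6 : (2 : ℝ) ^ (4 * j) = 16 ^ j := by
      rw [pow_mul]
      norm_num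
    rw [h5, h6]
    have h7 : (64 : ℝ) ^ j = 4 ^ j * 16 ^ j := by
      rw [← mul_pow]
      norm_num
    rw [h7]
    have h8 : (0 : ℝ) < 16 ^ j := by positivity
    nlinarith
  have hcv0 : 0 ≤ CV j / 8 ^ (2 * j) := div_nonneg (CV_pos j).le (by positivity)
  set q : ℝ := (1 / 2) ^ (4 * j) with hq
  have hq0 : 0 < q := by positivity
  have hfac : 8 * CV j * A * M * JJ u j / 8 ^ (2 * j) + 240 * (4 * j + 3) * (M : ℝ) / 2 ^ (4 * j)
      ≤ (8 * 576 * 25 * 300 + 960) * A * M * (P * q) := by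
    have h1 : 8 * CV j * A * M * (JJ u j : ℝ) / 8 ^ (2 * j)
        = (CV j / 8 ^ (2 * j)) * (8 * A * M * (300 * P)) := by
      unfold JJ
      push_cast
      rw [hP]
      ring
    have h2 : 240 * (4 * (j : ℝ) + 3) * (M : ℝ) / 2 ^ (4 * j) = 240 * (4 * j + 3) * M * q := by
      rw [hq, one_div_pow, mul_one_div]
    rw [h1, h2]
    have h3 : (CV j / 8 ^ (2 * j)) * (8 * A * M * (300 * P))
        ≤ (576 * 25 * q) * (8 * A * M * (300 * P)) :=
      mul_le_mul_of_nonneg_right hcv (by positivity)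
    have h5 : 240 * (4 * (j : ℝ) + 3) * M * q ≤ 960 * A * M * (P * q) := by
      have h6 : (4 * (j : ℝ) + 3) ≤ 4 * (A * P) := by
        have h7 : (0 : ℝ) ≤ u := Nat.cast_nonneg _
        have h8 : P ≤ A * P := by nlinarith
        rw [hP] at h8 ⊢
        linarith
      have h9 : 0 ≤ (M : ℝ) * q := by positivity
      nlinarith
    refine (add_le_add h3 h5).trans (le_of_eq ?_)
    ring
  have hfac0 : 0 ≤ 8 * CV j * A * M * JJ u j / 8 ^ (2 * j) + 240 * (4 * j + 3) * (M : ℝ) / 2 ^ (4 * j) := by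
    have := (CV_pos j).le
    positivity
  have hA0 : 0 ≤ A := by linarith
  have ht2 : (8 * CV j * A * M * JJ u j / 8 ^ (2 * j) + 240 * (4 * j + 3) * (M : ℝ) / 2 ^ (4 * j))
      * (cex M u j + 4) ≤ ((8 * 576 * 25 * 300 + 960) * A * M * (P * q)) * (404 * (N * P)) := by
    refine mul_le_mul hfac hcex ?_ (by positivity)
    unfold cex
    positivity
  have ht1 : (M : ℝ) * (cin M u j + 4) ≤ M * (N * P * (1 / 8) ^ (3 * j) + 5 * 4 ^ M) :=
    mul_le_mul_of_nonneg_left hcin hM0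
  have hK : (1 : ℝ) ≤ KC * A := by
    unfold KC
    nlinarith
  have ht3 : (M : ℝ) * (N * P * (1 / 8) ^ (3 * j)) ≤ KC * A * (M * (N * P * (1 / 8) ^ (3 * j))) := by
    have h1 : 0 ≤ (M : ℝ) * (N * P * (1 / 8) ^ (3 * j)) := by positivity
    nlinarith
  calc (M : ℝ) * (cin M u j + 4) + (8 * CV j * A * M * JJ u j / 8 ^ (2 * j)
        + 240 * (4 * j + 3) * (M : ℝ) / 2 ^ (4 * j)) * (cex M u j + 4)
      ≤ M * (N * P * (1 / 8) ^ (3 * j) + 5 * 4 ^ M)
        + ((8 * 576 * 25 * 300 + 960) * A * M * (P * q)) * (404 * (N * P)) := add_le_add ht1 ht2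
    _ = M * (N * P * (1 / 8) ^ (3 * j)) + KC * A * (M * N) * (P ^ 2 * q) + 5 * M * 4 ^ M := by
        unfold KC
        ring
    _ ≤ KC * A * (M * (N * P * (1 / 8) ^ (3 * j))) + KC * A * (M * N) * (P ^ 2 * q)
        + 5 * M * 4 ^ M := by linarith
    _ = _ := by ring

lemma lay_sub (j0 j M : ℕ) : lay j0 j M ⊆ range (2 ^ (j - j0)) := by
  classical
  intro u hu
  unfold lay at hu
  have h := (Finset.mem_filter.1 hu).2
  rw [Finset.mem_range]
  apply Nat.size_le.1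
  omega

lemma lay_card (j0 j M : ℕ) : (lay j0 j M).card ≤ M + 1 := by
  classical
  unfold lay
  refine (Finset.card_filter_le _ _).trans ?_
  rw [Finset.card_range]

theorem stSum : StSum := by
  classical
  intro A c hA hc
  have hA0 : 0 < A := by linarith
  have hKC : 0 < KC := by
    unfold KC
    norm_num
  -- choice of the base level
  obtain ⟨j1, hj1⟩ : ∃ j1 : ℕ, ((1 : ℝ) / 4) ^ j1 < c / (4 * (KC * A * 12)) :=
    exists_pow_lt_of_lt_one (by positivity) (by norm_num)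
  refine ⟨j1, ?_⟩
  intro j0 hj0
  -- choice of the size
  have hev : ∀ᶠ n : ℕ in Filter.atTop, (n : ℝ) ^ 2 / 2 ^ n < c / 160 := by
    have h := tendsto_pow_const_div_const_pow_of_one_lt 2 (one_lt_two (α := ℝ))
    exact h.eventually (gt_mem_nhds (by positivity))
  obtain ⟨n1, hn1⟩ := Filter.eventually_atTop.1 hev
  obtain ⟨n2, hn2⟩ := exists_nat_gt (4 / c)
  refine ⟨max (max n1 n2) (2 ^ (j0 + 20)), ?_⟩
  intro M hM
  have hM1 : n1 ≤ M := (le_max_left _ _).trans ((le_max_left _ _).trans hM)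
  have hM2 : n2 ≤ M := (le_max_right _ _).trans ((le_max_left _ _).trans hM)
  have hM3 : 2 ^ (j0 + 20) ≤ M := (le_max_right _ _).trans hM
  have hbig := big_ev j0 M hM3
  refine ⟨hbig, ?_⟩
  set s := Nat.size M with hs
  have hMpos : 1 ≤ M := by
    have : 0 < 2 ^ (j0 + 20) := by positivity
    omega
  have hsM : s + 1 ≤ M := by
    unfold Big at hbig
    omega
  have hMr : (1 : ℝ) ≤ M := by exact_mod_cast hMpos
  have h1 : ∀ j ∈ Ico j0 (j0 + s), ∑ u ∈ lay j0 j M, ctest A M u j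
      ≤ KC * A * (M * 8 ^ M) * ∑ u ∈ range (2 ^ (j - j0)),
        (((u : ℝ) + j + 1) * (1 / 8) ^ (3 * j) + ((u : ℝ) + j + 1) ^ 2 * (1 / 2) ^ (4 * j))
        + (M + 1) * (5 * M * 4 ^ M) := by
    intro j _
    have h2 : ∑ u ∈ lay j0 j M, ctest A M u j ≤ ∑ u ∈ lay j0 j M,
        (KC * A * (M * 8 ^ M) * (((u : ℝ) + j + 1) * (1 / 8) ^ (3 * j)
          + ((u : ℝ) + j + 1) ^ 2 * (1 / 2) ^ (4 * j)) + 5 * M * 4 ^ M) :=
      Finset.sum_le_sum (fun u _ => ctest_le A hA M u j)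
    refine h2.trans ?_
    rw [Finset.sum_add_distrib, ← Finset.mul_sum]
    have h3 : ∑ u ∈ lay j0 j M, (((u : ℝ) + j + 1) * (1 / 8) ^ (3 * j)
          + ((u : ℝ) + j + 1) ^ 2 * (1 / 2) ^ (4 * j))
        ≤ ∑ u ∈ range (2 ^ (j - j0)), (((u : ℝ) + j + 1) * (1 / 8) ^ (3 * j)
          + ((u : ℝ) + j + 1) ^ 2 * (1 / 2) ^ (4 * j)) :=
      Finset.sum_le_sum_of_subset_of_nonneg (lay_sub j0 j M) (fun u _ _ => by positivity)
    have h4 : ∑ _u ∈ lay j0 j M, (5 * (M : ℝ) * 4 ^ M) ≤ (M + 1) * (5 * M * 4 ^ M) := by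
      rw [Finset.sum_const, nsmul_eq_mul]
      refine mul_le_mul_of_nonneg_right ?_ (by positivity)
      exact_mod_cast lay_card j0 j M
    exact add_le_add (mul_le_mul_of_nonneg_left h3 (by positivity)) h4
  have h5 := Finset.sum_le_sum h1
  rw [Finset.sum_add_distrib, ← Finset.mul_sum, Finset.sum_const, Nat.card_Ico, nsmul_eq_mul] at h5
  have h6 : ∑ j ∈ Ico j0 (j0 + s), ∑ u ∈ range (2 ^ (j - j0)),
        (((u : ℝ) + j + 1) * (1 / 8) ^ (3 * j) + ((u : ℝ) + j + 1) ^ 2 * (1 / 2) ^ (4 * j))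
        ≤ 12 * (1 / 4) ^ j0 := by
    refine le_trans ?_ (cost_sum j0 (j0 + s))
    refine Finset.sum_le_sum_of_subset_of_nonneg ?_ (fun j _ _ => Finset.sum_nonneg (fun u _ => by positivity))
    intro j hj
    rw [Finset.mem_Ico] at hj
    rw [Finset.mem_Icc]
    omega
  have h7 : ((1 : ℝ) / 4) ^ j0 ≤ c / (4 * (KC * A * 12)) :=
    (pow_le_pow_of_le_one (by norm_num) (by norm_num) hj0).trans hj1.le
  have h8 : KC * A * (M * 8 ^ M) * ∑ j ∈ Ico j0 (j0 + s), ∑ u ∈ range (2 ^ (j - j0)),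
        (((u : ℝ) + j + 1) * (1 / 8) ^ (3 * j) + ((u : ℝ) + j + 1) ^ 2 * (1 / 2) ^ (4 * j))
        ≤ c / 4 * (M * 8 ^ M) := by
    have h9 : KC * A * (M * 8 ^ M) * (12 * (c / (4 * (KC * A * 12)))) = c / 4 * ((M : ℝ) * 8 ^ M) := by
      field_simp
    rw [← h9]
    refine mul_le_mul_of_nonneg_left (h6.trans ?_) (by positivity)
    linarith
  have h10 : (8 : ℝ) ^ M ≤ c / 4 * (M * 8 ^ M) := by
    have h11 : 4 / c < M := hn2.trans_le (by exact_mod_cast hM2)
    have h12 : 1 ≤ c / 4 * M := by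
      rw [div_lt_iff₀ hc] at h11
      linarith
    have h13 : (0 : ℝ) < 8 ^ M := by positivity
    nlinarith
  have h14 : ((j0 + s - j0 : ℕ) : ℝ) * ((M + 1) * (5 * M * 4 ^ M)) ≤ c / 4 * (M * 8 ^ M) := by
    have h15 : ((j0 + s - j0 : ℕ) : ℝ) ≤ M := by
      exact_mod_cast (by omega : j0 + s - j0 ≤ M)
    have h16 : (M : ℝ) ^ 2 / 2 ^ M < c / 160 := hn1 M hM1
    have h17 : (0 : ℝ) < 2 ^ M := by positivity
    rw [div_lt_iff₀ h17] at h16
    have h18 : (8 : ℝ) ^ M = 2 ^ M * 4 ^ M := by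
      rw [← mul_pow]
      norm_num
    rw [h18]
    have h19 : (0 : ℝ) < 4 ^ M := by positivity
    calc ((j0 + s - j0 : ℕ) : ℝ) * ((M + 1) * (5 * M * 4 ^ M))
        ≤ M * ((M + 1) * (5 * M * 4 ^ M)) := mul_le_mul_of_nonneg_right h15 (by positivity)
      _ ≤ M * ((2 * M) * (5 * M * 4 ^ M)) := by
          refine mul_le_mul_of_nonneg_left (mul_le_mul_of_nonneg_right (by linarith) (by positivity)) (by positivity)
      _ = 10 * (M : ℝ) ^ 2 * (M * 4 ^ M) := by ring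
      _ ≤ (c / 4 * 2 ^ M) * (M * 4 ^ M) := by
          refine mul_le_mul_of_nonneg_right ?_ (by positivity)
          have h20 : 0 < c * 2 ^ M := by positivity
          nlinarith
      _ = c / 4 * (M * (2 ^ M * 4 ^ M)) := by ring
  have h21 : 0 ≤ c / 4 * ((M : ℝ) * 8 ^ M) := by positivity
  linarith

end Pool.Agent.H72.CP
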