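import Pool.Agent.H75.MT.Phi

set_option autoImplicit false
set_option linter.unusedSectionVars false

/-!
Chernoff bound for Rademacher sums and the union bound for the random polynomial on a finite set
of points.
-/

open Finset ComplexConjugate MeasureTheory UnitAddTorus

namespace Pool.Agent.H72.CP

noncomputable section

open Pool.Agent.H75.MT

section Rad

variable {Y : Type*} [Fintype Y] [DecidableEq Y]

/-- One sided Chernoff bound. -/
lemma rad_tail_one {n : ℕ} (κ : Fin n → Y → ℝ) (V : ℝ) (hV : 0 < V)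
    (hκ : ∑ b, ∑ y, (κ b y) ^ 2 ≤ V) (t : ℝ) (ht : 0 ≤ t) :
    ((univ.filter (fun ε : Fin n → Finset Y => t < rad κ ε)).card : ℝ)
      ≤ (2 ^ Fintype.card Y) ^ n * Real.exp (-(t ^ 2 / (2 * V))) := by
  set a : ℝ := t / V with ha
  have ha0 : 0 ≤ a := by positivity
  have h1 := sum_exp_le (fun b y => a * κ b y)
  have h2 : ∀ ε : Fin n → Finset Y, rad (fun b y => a * κ b y) ε = a * rad κ ε := by
    intro ε
    unfold rad
    rw [Finset.mul_sum]
    refine Finset.sum_congr rfl (fun b _ => ?_)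
    rw [Finset.mul_sum]
    refine Finset.sum_congr rfl (fun y _ => ?_)
    ring
  simp only [h2] at h1
  have h3 : ∑ b, ∑ y, (a * κ b y) ^ 2 = a ^ 2 * ∑ b, ∑ y, (κ b y) ^ 2 := by
    rw [Finset.mul_sum]
    refine Finset.sum_congr rfl (fun b _ => ?_)
    rw [Finset.mul_sum]
    refine Finset.sum_congr rfl (fun y _ => ?_)
    ring
  rw [h3] at h1
  have h4 : (univ.filter (fun ε : Fin n → Finset Y => t < rad κ ε)).card * Real.exp (a * t)
      ≤ ∑ ε : Fin n → Finset Y, Real.exp (a * rad κ ε) := by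
    rw [← nsmul_eq_mul]
    refine (Finset.card_nsmul_le_sum _ (fun ε => Real.exp (a * rad κ ε)) _ ?_).trans ?_
    · intro ε hε
      apply Real.exp_le_exp.2
      exact mul_le_mul_of_nonneg_left (Finset.mem_filter.1 hε).2.le ha0
    · exact Finset.sum_le_sum_of_subset_of_nonneg (Finset.filter_subset _ _)
        (fun ε _ _ => (Real.exp_pos _).le)
  have h5 : Real.exp (a ^ 2 * (∑ b, ∑ y, (κ b y) ^ 2) / 2) ≤ Real.exp (a ^ 2 * V / 2) := by
    apply Real.exp_le_exp.2
    have := mul_le_mul_of_nonneg_left hκ (sq_nonneg a)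
    linarith
  have h6 := h4.trans (h1.trans (mul_le_mul_of_nonneg_left h5 (by positivity)))
  have h7 : Real.exp (a ^ 2 * V / 2) = Real.exp (-(t ^ 2 / (2 * V))) * Real.exp (a * t) := by
    rw [← Real.exp_add]
    congr 1
    rw [ha]
    field_simp
    ring
  rw [h7, ← mul_assoc] at h6
  exact le_of_mul_le_mul_right h6 (Real.exp_pos _)

/-- Two sided Chernoff bound. -/
lemma rad_tail {n : ℕ} (κ : Fin n → Y → ℝ) (V : ℝ) (hV : 0 < V)
    (hκ : ∑ b, ∑ y, (κ b y) ^ 2 ≤ V) (t : ℝ) (ht : 0 ≤ t) :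
    ((univ.filter (fun ε : Fin n → Finset Y => t < |rad κ ε|)).card : ℝ)
      ≤ 2 * ((2 ^ Fintype.card Y) ^ n * Real.exp (-(t ^ 2 / (2 * V)))) := by
  have h1 := rad_tail_one κ V hV hκ t ht
  have h2 := rad_tail_one (fun b y => - κ b y) V hV (by simpa using hκ) t ht
  have h3 : (univ.filter (fun ε : Fin n → Finset Y => t < |rad κ ε|))
      ⊆ (univ.filter (fun ε : Fin n → Finset Y => t < rad κ ε))
      ∪ (univ.filter (fun ε : Fin n → Finset Y => t < rad (fun b y => - κ b y) ε)) := by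
    intro ε hε
    rw [Finset.mem_filter] at hε
    rw [Finset.mem_union, Finset.mem_filter, Finset.mem_filter]
    rcases lt_abs.1 hε.2 with h | h
    · exact Or.inl ⟨mem_univ _, h⟩
    · refine Or.inr ⟨mem_univ _, ?_⟩
      have h4 : rad (fun b y => - κ b y) ε = - rad κ ε := by
        unfold rad
        rw [← Finset.sum_neg_distrib]
        refine Finset.sum_congr rfl (fun b _ => ?_)
        rw [← Finset.sum_neg_distrib]
        refine Finset.sum_congr rfl (fun y _ => ?_)
        ring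
      rw [h4]
      exact h
  have h4 : ((univ.filter (fun ε : Fin n → Finset Y => t < |rad κ ε|)).card : ℝ)
      ≤ ((univ.filter (fun ε : Fin n → Finset Y => t < rad κ ε)).card : ℝ)
      + ((univ.filter (fun ε : Fin n → Finset Y => t < rad (fun b y => - κ b y) ε)).card : ℝ) := by
    exact_mod_cast (Finset.card_le_card h3).trans (Finset.card_union_le _ _)
  linarith

open Classical in
/-- Union bound over finitely many Rademacher sums. -/
lemma rad_union {n : ℕ} {X : Type*} (S : Finset X) (κ : X → Fin n → Y → ℝ) (V : ℝ) (hV : 0 < V)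
    (hκ : ∀ x ∈ S, ∑ b, ∑ y, (κ x b y) ^ 2 ≤ V) (t : ℝ) (ht : 0 ≤ t) :
    ((univ.filter (fun ε : Fin n → Finset Y => ∃ x ∈ S, t < |rad (κ x) ε|)).card : ℝ)
      ≤ S.card * (2 * ((2 ^ Fintype.card Y) ^ n * Real.exp (-(t ^ 2 / (2 * V))))) := by
  have h1 : (univ.filter (fun ε : Fin n → Finset Y => ∃ x ∈ S, t < |rad (κ x) ε|))
      ⊆ S.biUnion (fun x => univ.filter (fun ε : Fin n → Finset Y => t < |rad (κ x) ε|)) := by
    intro ε hε
    obtain ⟨x, hx, h⟩ := (Finset.mem_filter.1 hε).2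
    exact Finset.mem_biUnion.2 ⟨x, hx, Finset.mem_filter.2 ⟨mem_univ _, h⟩⟩
  have h2 := (Finset.card_le_card h1).trans Finset.card_biUnion_le
  have h3 : ((univ.filter (fun ε : Fin n → Finset Y => ∃ x ∈ S, t < |rad (κ x) ε|)).card : ℝ)
      ≤ ∑ x ∈ S, ((univ.filter (fun ε : Fin n → Finset Y => t < |rad (κ x) ε|)).card : ℝ) := by
    exact_mod_cast h2
  refine h3.trans ((Finset.sum_le_sum (fun x hx => rad_tail (κ x) V hV (hκ x hx) t ht)).trans ?_)
  rw [Finset.sum_const, nsmul_eq_mul]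

end Rad

lemma mu_zero (K : ℕ) (k : Fin 2 → ℤ) : mu 0 K k = 1 := by
  unfold mu
  simp

lemma pa_zero (K : ℕ) (ε : ℕ → Finset (YK K)) : pa 0 K ε = aa K ε := by
  funext b k
  unfold pa
  rw [mu_zero, one_mul]

lemma kf_sq_zero (K : ℕ) (x : T2) (b : ℕ) : ∑ y, (kf 0 K x b y) ^ 2 ≤ 1 := by
  by_cases hb : b ≤ K
  · set N : ℝ := ((2 * Zf b : ℕ) * (2 * Zs K b : ℕ) : ℝ) with hNdef
    have hN : 0 < N := by
      rw [hNdef]
      have := Zf_pos b
      have := Zs_pos K b
      positivity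
    have h1 : ∀ y, (kf 0 K x b y) ^ 2 ≤ (1 / N) ^ 2 *
        ‖∑ k ∈ bx (2 * Zf b) (4 * Zf b) (2 * Zs K b) (4 * Zs K b),
          conj (mu 0 K k * mFourier k x) * chi (Zf b) (Zs K b) (eb K b hb) k y‖ ^ 2 := by
      intro y
      unfold kf
      rw [dif_pos hb]
      have h2 : ∑ k ∈ RB K b, ((1 / N : ℝ) : ℂ) *
          (mu 0 K k * mFourier k x * conj (chi (Zf b) (Zs K b) (eb K b hb) k y))
          = ((1 / N : ℝ) : ℂ) * conj (∑ k ∈ bx (2 * Zf b) (4 * Zf b) (2 * Zs K b) (4 * Zs K b),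
          conj (mu 0 K k * mFourier k x) * chi (Zf b) (Zs K b) (eb K b hb) k y) := by
        rw [← Finset.mul_sum, map_sum]
        congr 1
        refine Finset.sum_congr rfl (fun k _ => ?_)
        rw [map_mul, Complex.conj_conj]
      rw [h2]
      have h3 := Complex.abs_re_le_norm (((1 / N : ℝ) : ℂ)
        * conj (∑ k ∈ bx (2 * Zf b) (4 * Zf b) (2 * Zs K b) (4 * Zs K b),
          conj (mu 0 K k * mFourier k x) * chi (Zf b) (Zs K b) (eb K b hb) k y))
      have h5 : |1 / N| = 1 / N := abs_of_pos (by positivity)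
      rw [norm_mul, RCLike.norm_conj, Complex.norm_real, Real.norm_eq_abs, h5] at h3
      have h4 := pow_le_pow_left₀ (abs_nonneg _) h3 2
      rw [sq_abs, mul_pow] at h4
      exact h4
    refine (Finset.sum_le_sum (fun y _ => h1 y)).trans ?_
    rw [← Finset.mul_sum]
    have h5 := bessel_two (Zf b) (Zs K b) (eb K b hb) (Zf_pos b) (Zs_pos K b) 1 1 (2 * Zf b)
      (4 * Zf b) (2 * Zs K b) (4 * Zs K b) (by push_cast; linarith) (by push_cast; linarith)
      (fun k => conj (mu 0 K k * mFourier k x))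
    have h6 : ∑ k ∈ bx (2 * Zf b) (4 * Zf b) (2 * Zs K b) (4 * Zs K b),
        ‖conj (mu 0 K k * mFourier k x)‖ ^ 2 ≤ N := by
      have h7 : ∀ k ∈ bx (2 * Zf b) (4 * Zf b) (2 * Zs K b) (4 * Zs K b),
          ‖conj (mu 0 K k * mFourier k x)‖ ^ 2 ≤ 1 := by
        intro k hk
        rw [RCLike.norm_conj, norm_mul, mF_norm_apply, mul_one, mu_zero, norm_one, one_pow]
      refine (Finset.sum_le_sum h7).trans (le_of_eq ?_)
      rw [Finset.sum_const, nsmul_eq_mul, mul_one]
      have := RB_card K b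
      unfold RB Rm at this
      rw [this]
    rw [← hNdef] at h5
    have h8 : (1 / N) ^ 2 * ∑ y, ‖∑ k ∈ bx (2 * Zf b) (4 * Zf b) (2 * Zs K b) (4 * Zs K b),
          conj (mu 0 K k * mFourier k x) * chi (Zf b) (Zs K b) (eb K b hb) k y‖ ^ 2
        ≤ (1 / N) ^ 2 * (N * (1 * 1 : ℕ) * N) :=
      mul_le_mul_of_nonneg_left (h5.trans (mul_le_mul_of_nonneg_left h6 (by positivity)))
        (by positivity)
    refine h8.trans (le_of_eq ?_)
    push_cast
    field_simp
  · have h2 : ∀ y, kf 0 K x b y = 0 := by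
      intro y
      unfold kf
      rw [dif_neg hb]
    simp only [h2]
    simp

lemma TT_norm (K n : ℕ) (a : ℕ → (Fin 2 → ℤ) → ℂ) (x : T2) :
    ‖TT K n a x‖ = |(TT K n a x).re| := by
  have h := TT_real K n a x
  have h2 : TT K n a x = (((TT K n a x).re : ℝ) : ℂ) := by
    apply Complex.ext
    · simp
    · simpa using h
  conv_lhs => rw [h2]
  rw [Complex.norm_real, Real.norm_eq_abs]

open Classical in
/-- For all but few sign choices the random polynomial is at most `t` on the finite set `S`. -/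
theorem sup_bad (K n : ℕ) (hn : 1 ≤ n) (S : Finset T2) (t : ℝ) (ht : 0 ≤ t) :
    ((univ.filter (fun ε : Fin n → Finset (YK K) =>
      ∃ x ∈ S, t < ‖TT K n (aa K (ext ε)) x‖)).card : ℝ)
      ≤ S.card * (2 * ((2 ^ Fintype.card (YK K)) ^ n * Real.exp (-(t ^ 2 / (2 * n))))) := by
  have hn' : (0 : ℝ) < n := by exact_mod_cast hn
  have h1 := rad_union S (fun x (b : Fin n) y => kf 0 K x b y) n hn' (fun x _ => ?_) t ht
  · refine le_trans (le_of_eq ?_) h1
    congr 2
    apply Finset.filter_congr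
    intro ε _
    have h2 : ∀ x, ‖TT K n (aa K (ext ε)) x‖
        = |rad (fun (b : Fin n) y => kf 0 K x b y) ε| := by
      intro x
      rw [TT_norm, ← pa_zero, phi_rad]
    simp only [h2]
  · have h2 : ∀ b : Fin n, ∑ y, (kf 0 K x b y) ^ 2 ≤ 1 := fun b => kf_sq_zero K x b
    refine (Finset.sum_le_sum (fun b _ => h2 b)).trans (le_of_eq ?_)
    rw [Finset.sum_const, Finset.card_univ, Fintype.card_fin, nsmul_eq_mul, mul_one]

end

end Pool.Agent.H72.CP
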