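import Pool.Agent.H98.CP.St
import Pool.Agent.H72.CP.Sup

set_option autoImplicit false

/-! The extremal function is bounded on the group for most sign vectors. -/

open Finset

namespace Pool.Agent.H72.CP

open Pool.Agent.H98.CP Pool.Agent.H75.MT H95.CP

theorem stSupT : StSupT := by
  classical
  refine ⟨5, by norm_num, 1, ?_⟩
  intro K hK
  have hKr : (1 : ℝ) ≤ K := by exact_mod_cast hK
  set S : Finset T2 := (univ : Finset (G (K + 2))).image tpt with hS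
  set t : ℝ := 5 * ((K : ℝ) + 2) with ht
  have ht0 : 0 ≤ t := by positivity
  have h1 := sup_bad K (K + 1) (by omega) S t ht0
  have hSc : S.card ≤ 64 ^ (K + 4) := by
    refine (Finset.card_image_le).trans ?_
    rw [Finset.card_univ]
    have h2 : Fintype.card (G (K + 2)) = LL (K + 2) * LL (K + 2) := by
      unfold G GG
      rw [Fintype.card_prod, ZMod.card]
    rw [h2]
    rw [← mul_pow]
    norm_num
  have h3 : (univ.filter (fun ε : Fin (K + 1) → Finset (YK K) => ∃ x : G (K + 2),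
      5 * ((K : ℝ) + 2) < |((TT K (K + 1) (aa K (ext ε))) (tpt x)).re|))
      ⊆ univ.filter (fun ε : Fin (K + 1) → Finset (YK K) =>
        ∃ x ∈ S, t < ‖TT K (K + 1) (aa K (ext ε)) x‖) := by
    intro ε hε
    obtain ⟨x, hx⟩ := (Finset.mem_filter.1 hε).2
    refine Finset.mem_filter.2 ⟨mem_univ _, tpt x, ?_, ?_⟩
    · rw [hS]
      exact Finset.mem_image_of_mem _ (mem_univ _)
    · rw [TT_norm]
      exact hx
  have h4 := Finset.card_le_card h3
  have hexp : Real.exp (-(t ^ 2 / (2 * ((K + 1 : ℕ) : ℝ)))) ≤ (1 / 2) ^ (12 * (K + 2)) := by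
    have h5 : (12 * (K + 2) : ℕ) * (1 : ℝ) ≤ t ^ 2 / (2 * ((K + 1 : ℕ) : ℝ)) := by
      rw [le_div_iff₀ (by positivity), ht]
      push_cast
      nlinarith
    have h6 : Real.exp (-(t ^ 2 / (2 * ((K + 1 : ℕ) : ℝ)))) ≤ Real.exp (-((12 * (K + 2) : ℕ) * (1 : ℝ))) :=
      Real.exp_le_exp.2 (by linarith)
    refine h6.trans ?_
    rw [Real.exp_neg, Real.exp_nat_mul, ← inv_pow]
    refine pow_le_pow_left₀ (by positivity) ?_ _
    rw [one_div]
    refine inv_anti₀ (by norm_num) ?_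
    have := Real.add_one_le_exp (1 : ℝ)
    linarith
  have hcard : Fintype.card (YK K) = 8 ^ (K + 2) := Fintype.card_fin _
  rw [hcard] at h1
  have h7 : ((8 * (univ.filter (fun ε : Fin (K + 1) → Finset (YK K) => ∃ x : G (K + 2),
      5 * ((K : ℝ) + 2) < |((TT K (K + 1) (aa K (ext ε))) (tpt x)).re|)).card : ℕ) : ℝ)
      ≤ ((2 ^ (8 ^ (K + 2) * (K + 1)) : ℕ) : ℝ) := by
    have h8 : ((univ.filter (fun ε : Fin (K + 1) → Finset (YK K) => ∃ x : G (K + 2),
      5 * ((K : ℝ) + 2) < |((TT K (K + 1) (aa K (ext ε))) (tpt x)).re|)).card : ℝ)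
        ≤ ((univ.filter (fun ε : Fin (K + 1) → Finset (YK K) =>
        ∃ x ∈ S, t < ‖TT K (K + 1) (aa K (ext ε)) x‖)).card : ℝ) := by exact_mod_cast h4
    have h9 : (S.card : ℝ) ≤ (64 : ℝ) ^ (K + 4) := by exact_mod_cast hSc
    have h10 : (S.card : ℝ) * (2 * ((2 ^ (8 ^ (K + 2))) ^ (K + 1)
        * Real.exp (-(t ^ 2 / (2 * ((K + 1 : ℕ) : ℝ))))))
        ≤ (64 : ℝ) ^ (K + 4) * (2 * ((2 ^ (8 ^ (K + 2))) ^ (K + 1) * (1 / 2) ^ (12 * (K + 2)))) := by
      gcongr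
    have h11 : 8 * ((64 : ℝ) ^ (K + 4) * (2 * ((2 ^ (8 ^ (K + 2))) ^ (K + 1) * (1 / 2) ^ (12 * (K + 2)))))
        ≤ 2 ^ (8 ^ (K + 2) * (K + 1)) := by
      rw [pow_mul (2 : ℝ) (8 ^ (K + 2)) (K + 1)]
      have h12 : 16 * (64 : ℝ) ^ (K + 4) * (1 / 2) ^ (12 * (K + 2)) ≤ 1 := by
        have h13 : (1 / 2 : ℝ) ^ (12 * (K + 2)) = 1 / 4096 ^ (K + 2) := by
          rw [pow_mul, one_div_pow, one_div_pow]
          norm_num
        rw [h13, mul_one_div, div_le_one (by positivity)]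
        have h14 : (64 : ℝ) ^ (K + 4) = 64 ^ K * 64 ^ 4 := pow_add _ _ _
        have h15 : (4096 : ℝ) ^ (K + 2) = 64 ^ K * 64 ^ K * 4096 ^ 2 := by
          rw [pow_add, ← mul_pow]
          norm_num
        have h16 : (64 : ℝ) ≤ 64 ^ K := by
          calc (64 : ℝ) = 64 ^ 1 := (pow_one _).symm
            _ ≤ 64 ^ K := pow_le_pow_right₀ (by norm_num) hK
        rw [h14, h15]
        nlinarith
      have h17 : (0 : ℝ) ≤ ((2 : ℝ) ^ (8 ^ (K + 2))) ^ (K + 1) := by positivity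
      calc 8 * ((64 : ℝ) ^ (K + 4) * (2 * ((2 ^ (8 ^ (K + 2))) ^ (K + 1) * (1 / 2) ^ (12 * (K + 2)))))
          = (16 * (64 : ℝ) ^ (K + 4) * (1 / 2) ^ (12 * (K + 2))) * ((2 : ℝ) ^ (8 ^ (K + 2))) ^ (K + 1) := by
            ring
        _ ≤ 1 * ((2 : ℝ) ^ (8 ^ (K + 2))) ^ (K + 1) := mul_le_mul_of_nonneg_right h12 h17
        _ = _ := one_mul _
    push_cast
    push_cast at h1 h10
    linarith
  exact Nat.cast_le.1 h7

end Pool.Agent.H72.CP
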