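import Pool.Agent.H98.CP.Defs

set_option autoImplicit false

/-! The number of sample codes of the final test. -/

open Finset

namespace Pool.Agent.H72.CP

open Pool.Agent.H98.CP

/-- sample number of scale `d` -/
noncomputable def nd (M d : ℕ) : ℕ := ⌊(8 : ℝ) ^ M * (3 / 4) ^ d⌋₊ + 1

/-- sample number of scale `s` of the far part -/
noncomputable def ns (M J s : ℕ) : ℕ := ⌊(8 : ℝ) ^ M * (3 / 4) ^ J * (1 / 4) ^ s⌋₊ + 1

lemma fac (M E b : ℕ) (C x : ℝ) (hC : 0 ≤ C) (hx : 0 < x) (hx1 : x ≤ 1)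
    (hb : Real.exp 1 * (C + 3) * 8 ^ E / x ≤ 2 ^ b) :
    (Real.exp 1 * (C * 8 ^ (M + E) + 1 + ((⌊(8 : ℝ) ^ M * x⌋₊ + 1 : ℕ) : ℝ))
      / ((⌊(8 : ℝ) ^ M * x⌋₊ + 1 : ℕ) : ℝ)) ^ (⌊(8 : ℝ) ^ M * x⌋₊ + 1)
      ≤ 2 ^ ((b : ℝ) * (8 ^ M * x + 1)) := by
  set n : ℕ := ⌊(8 : ℝ) ^ M * x⌋₊ + 1 with hn
  have h8 : (1 : ℝ) ≤ 8 ^ M := one_le_pow₀ (by norm_num)
  have h8E : (1 : ℝ) ≤ 8 ^ E := one_le_pow₀ (by norm_num)
  have hlo : (8 : ℝ) ^ M * x ≤ n := by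
    rw [hn]
    push_cast
    exact (Nat.lt_floor_add_one _).le
  have hhi : (n : ℝ) ≤ 8 ^ M * x + 1 := by
    rw [hn]
    push_cast
    have := Nat.floor_le (by positivity : (0 : ℝ) ≤ 8 ^ M * x)
    linarith
  have hnpos : (0 : ℝ) < n := by
    rw [hn]
    push_cast
    positivity
  have hn2 : (n : ℝ) ≤ 2 * 8 ^ (M + E) := by
    have h1 : (8 : ℝ) ^ M * x ≤ 8 ^ M := by nlinarith
    have h2 : (8 : ℝ) ^ M ≤ 8 ^ (M + E) := pow_le_pow_right₀ (by norm_num) (by omega)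
    linarith
  have h8ME : (1 : ℝ) ≤ 8 ^ (M + E) := one_le_pow₀ (by norm_num)
  have hf : Real.exp 1 * (C * 8 ^ (M + E) + 1 + (n : ℝ)) / n ≤ 2 ^ b := by
    refine le_trans ?_ hb
    rw [div_le_div_iff₀ hnpos hx]
    have he := Real.exp_pos 1
    have h1 : C * 8 ^ (M + E) + 1 + (n : ℝ) ≤ (C + 3) * 8 ^ (M + E) := by linarith
    have h2 : (C * 8 ^ (M + E) + 1 + (n : ℝ)) * x ≤ (C + 3) * 8 ^ E * n := by
      calc (C * 8 ^ (M + E) + 1 + (n : ℝ)) * x ≤ ((C + 3) * 8 ^ (M + E)) * x :=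
            mul_le_mul_of_nonneg_right h1 hx.le
        _ = (C + 3) * 8 ^ E * (8 ^ M * x) := by
            rw [pow_add]
            ring
        _ ≤ (C + 3) * 8 ^ E * n := mul_le_mul_of_nonneg_left hlo (by positivity)
    calc Real.exp 1 * (C * 8 ^ (M + E) + 1 + (n : ℝ)) * x
        = Real.exp 1 * ((C * 8 ^ (M + E) + 1 + (n : ℝ)) * x) := by ring
      _ ≤ Real.exp 1 * ((C + 3) * 8 ^ E * n) := mul_le_mul_of_nonneg_left h2 he.le
      _ = _ := by ring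
  have hf0 : 0 ≤ Real.exp 1 * (C * 8 ^ (M + E) + 1 + (n : ℝ)) / n := by positivity
  refine (pow_le_pow_left₀ hf0 hf n).trans ?_
  rw [← pow_mul, ← Real.rpow_natCast]
  refine Real.rpow_le_rpow_of_exponent_le (by norm_num) ?_
  push_cast
  exact mul_le_mul_of_nonneg_left hhi (Nat.cast_nonneg _)

lemma prod_rpow (s : Finset ℕ) (f : ℕ → ℝ) (g : ℕ → ℝ) (h0 : ∀ i ∈ s, 0 ≤ f i)
    (h : ∀ i ∈ s, f i ≤ 2 ^ g i) : ∏ i ∈ s, f i ≤ 2 ^ (∑ i ∈ s, g i) := by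
  classical
  refine (Finset.prod_le_prod h0 h).trans (le_of_eq ?_)
  rw [Real.rpow_sum_of_pos (by norm_num)]

lemma EE_le (d : ℕ) : ((EE d : ℕ) : ℝ) ≤ (7 / 6) ^ d := by
  unfold EE
  push_cast
  have h1 : (2 : ℝ) ≤ (7 / 6) ^ 60 := by norm_num
  calc (2 : ℝ) ^ (d / 60) ≤ ((7 / 6) ^ 60) ^ (d / 60) := pow_le_pow_left₀ (by norm_num) h1 _
    _ = (7 / 6) ^ (60 * (d / 60)) := by rw [← pow_mul]
    _ ≤ (7 / 6) ^ d := pow_le_pow_right₀ (by norm_num) (Nat.mul_div_le d 60)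

lemma bd_le (d : ℕ) : ((19 + 3 * EE d + d : ℕ) : ℝ) ≤ 28 * (7 / 6) ^ d := by
  push_cast
  have h1 := EE_le d
  have h2 : 1 + (d : ℝ) * (1 / 6) ≤ (1 + 1 / 6) ^ d :=
    one_add_mul_le_pow (by norm_num) d
  have h3 : (1 + 1 / 6 : ℝ) = 7 / 6 := by norm_num
  rw [h3] at h2
  have h4 : (1 : ℝ) ≤ (7 / 6) ^ d := one_le_pow₀ (by norm_num)
  linarith

lemma part_d (M d : ℕ) :
    (Real.exp 1 * (4 * (24576 * (8 : ℝ) ^ (M + EE d)) + 1 + (nd M d : ℝ)) / nd M d) ^ nd M d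
      ≤ 2 ^ (28 * (8 : ℝ) ^ M * (7 / 8) ^ d + 28 * (7 / 6) ^ d) := by
  have h := fac M (EE d) (19 + 3 * EE d + d) (4 * 24576) ((3 / 4) ^ d) (by norm_num) (by positivity)
    (pow_le_one₀ (by norm_num) (by norm_num)) (by
      have he := Real.exp_one_lt_d9
      have h1 : (8 : ℝ) ^ (EE d) = 2 ^ (3 * EE d) := by
        rw [pow_mul]
        norm_num
      rw [h1, pow_add, pow_add, div_le_iff₀ (by positivity)]
      have h2 : (1 : ℝ) ≤ 2 ^ d * (3 / 4) ^ d := by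
        rw [← mul_pow]
        exact one_le_pow₀ (by norm_num)
      have h3 : Real.exp 1 * (4 * 24576 + 3) ≤ 2 ^ 19 := by
        norm_num
        linarith
      calc Real.exp 1 * (4 * 24576 + 3) * 2 ^ (3 * EE d) ≤ 2 ^ 19 * 2 ^ (3 * EE d) :=
            mul_le_mul_of_nonneg_right h3 (by positivity)
        _ = 2 ^ 19 * 2 ^ (3 * EE d) * 1 := (mul_one _).symm
        _ ≤ 2 ^ 19 * 2 ^ (3 * EE d) * (2 ^ d * (3 / 4) ^ d) :=
            mul_le_mul_of_nonneg_left h2 (by positivity)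
        _ = _ := by ring)
  unfold nd
  have h0 : 4 * (24576 * (8 : ℝ) ^ (M + EE d)) = 4 * 24576 * 8 ^ (M + EE d) := by ring
  rw [h0]
  refine h.trans (Real.rpow_le_rpow_of_exponent_le (by norm_num) ?_)
  have h4 := bd_le d
  have h5 : (0 : ℝ) ≤ 8 ^ M * (3 / 4) ^ d + 1 := by positivity
  refine (mul_le_mul_of_nonneg_right h4 h5).trans (le_of_eq ?_)
  have h6 : ((7 : ℝ) / 8) ^ d = (7 / 6) ^ d * (3 / 4) ^ d := by
    rw [← mul_pow]
    norm_num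
  rw [h6]
  ring

lemma part_s (M J s : ℕ) :
    (Real.exp 1 * (4 * (6 * (8 : ℝ) ^ (M + 2 ^ s)) + 1 + (ns M J s : ℝ)) / ns M J s) ^ ns M J s
      ≤ 2 ^ ((12 + (J : ℝ)) * (8 : ℝ) ^ M * (3 / 4) ^ J * (1 / 2) ^ s + (12 + (J : ℝ)) * 2 ^ s) := by
  have h := fac M (2 ^ s) (7 + 3 * 2 ^ s + J + 2 * s) (4 * 6) ((3 / 4) ^ J * (1 / 4) ^ s) (by norm_num)
    (by positivity)
    (mul_le_one₀ (pow_le_one₀ (by norm_num) (by norm_num)) (by positivity)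
      (pow_le_one₀ (by norm_num) (by norm_num))) (by
      have he := Real.exp_one_lt_d9
      have h1 : (8 : ℝ) ^ (2 ^ s) = 2 ^ (3 * 2 ^ s) := by
        rw [pow_mul]
        norm_num
      rw [h1, pow_add, pow_add, pow_add, div_le_iff₀ (by positivity)]
      have h2 : (1 : ℝ) ≤ 2 ^ J * (3 / 4) ^ J := by
        rw [← mul_pow]
        exact one_le_pow₀ (by norm_num)
      have h2' : (1 : ℝ) = 2 ^ (2 * s) * (1 / 4) ^ s := by
        rw [pow_mul, ← mul_pow]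
        norm_num
      have h3 : Real.exp 1 * (4 * 6 + 3) ≤ 2 ^ 7 := by
        norm_num
        linarith
      calc Real.exp 1 * (4 * 6 + 3) * 2 ^ (3 * 2 ^ s) ≤ 2 ^ 7 * 2 ^ (3 * 2 ^ s) :=
            mul_le_mul_of_nonneg_right h3 (by positivity)
        _ = 2 ^ 7 * 2 ^ (3 * 2 ^ s) * 1 := (mul_one _).symm
        _ ≤ 2 ^ 7 * 2 ^ (3 * 2 ^ s) * (2 ^ J * (3 / 4) ^ J) :=
            mul_le_mul_of_nonneg_left h2 (by positivity)
        _ = 2 ^ 7 * 2 ^ (3 * 2 ^ s) * (2 ^ J * (3 / 4) ^ J) * 1 := (mul_one _).symm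
        _ = 2 ^ 7 * 2 ^ (3 * 2 ^ s) * (2 ^ J * (3 / 4) ^ J) * (2 ^ (2 * s) * (1 / 4) ^ s) := by
            rw [← h2']
        _ = _ := by ring)
  unfold ns
  have h0 : 4 * (6 * (8 : ℝ) ^ (M + 2 ^ s)) = 4 * 6 * 8 ^ (M + 2 ^ s) := by ring
  have h00 : (8 : ℝ) ^ M * (3 / 4) ^ J * (1 / 4) ^ s = 8 ^ M * ((3 / 4) ^ J * (1 / 4) ^ s) := by ring
  rw [h0, h00]
  refine h.trans (Real.rpow_le_rpow_of_exponent_le (by norm_num) ?_)
  have h4 : ((7 + 3 * 2 ^ s + J + 2 * s : ℕ) : ℝ) ≤ (12 + (J : ℝ)) * 2 ^ s := by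
    push_cast
    have h5 : (s : ℝ) ≤ 2 ^ s := by exact_mod_cast (Nat.lt_two_pow_self (n := s)).le
    have h6 : (1 : ℝ) ≤ 2 ^ s := one_le_pow₀ (by norm_num)
    have h7 : (0 : ℝ) ≤ J := Nat.cast_nonneg _
    nlinarith
  have h5 : (0 : ℝ) ≤ 8 ^ M * ((3 / 4) ^ J * (1 / 4) ^ s) + 1 := by positivity
  refine (mul_le_mul_of_nonneg_right h4 h5).trans (le_of_eq ?_)
  have h6 : ((1 : ℝ) / 2) ^ s = 2 ^ s * (1 / 4) ^ s := by
    rw [← mul_pow]
    norm_num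
  rw [h6]
  ring

lemma geo_Icc (q : ℝ) (hq : 0 < q) (hq1 : q < 1) (J m : ℕ) :
    ∑ d ∈ Icc J m, q ^ d ≤ q ^ J / (1 - q) := by
  have h1 : 0 < 1 - q := by linarith
  have h : ∀ n : ℕ, ∑ d ∈ Finset.Ico J (J + n), q ^ d = (q ^ J - q ^ (J + n)) / (1 - q) := by
    intro n
    induction n with
    | zero => simp
    | succ n ih =>
      rw [← Nat.add_assoc, Finset.sum_Ico_succ_top (by omega), ih, pow_succ]
      field_simp
      ring
  by_cases hj : J ≤ m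
  · have h2 : Finset.Icc J m = Finset.Ico J (J + (m + 1 - J)) := by
      ext x
      rw [Finset.mem_Icc, Finset.mem_Ico]
      omega
    rw [h2, h]
    apply div_le_div_of_nonneg_right _ h1.le
    have : (0 : ℝ) < q ^ (J + (m + 1 - J)) := by positivity
    linarith
  · rw [Finset.Icc_eq_empty hj, Finset.sum_empty]
    positivity

lemma sum_range_half (n : ℕ) : ∑ s ∈ range n, ((1 : ℝ) / 2) ^ s ≤ 2 := by
  have h : ∑ s ∈ range n, ((1 : ℝ) / 2) ^ s = 2 - 2 * (1 / 2) ^ n := by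
    induction n with
    | zero => simp
    | succ n ih =>
      rw [Finset.sum_range_succ, ih, pow_succ]
      ring
  rw [h]
  have : (0 : ℝ) < (1 / 2) ^ n := by positivity
  linarith

lemma sum_range_two (n : ℕ) : ∑ s ∈ range n, (2 : ℝ) ^ s ≤ 2 ^ n := by
  have h : ∑ s ∈ range n, (2 : ℝ) ^ s = 2 ^ n - 1 := by
    induction n with
    | zero => simp
    | succ n ih =>
      rw [Finset.sum_range_succ, ih, pow_succ]
      ring
  rw [h]
  linarith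

theorem card_fin : ∃ J1 : ℕ, ∀ J, J1 ≤ J → ∃ M1 : ℕ, ∀ M, M1 ≤ M → ∀ m, m ≤ M →
    (∏ d ∈ Icc J m, (Real.exp 1 * (4 * (24576 * (8 : ℝ) ^ (M + EE d)) + 1 + (nd M d : ℝ))
      / nd M d) ^ nd M d)
      * (∏ s ∈ range (Nat.size M + 1), (Real.exp 1 * (4 * (6 * (8 : ℝ) ^ (M + 2 ^ s)) + 1
        + (ns M J s : ℝ)) / ns M J s) ^ ns M J s)
      ≤ 2 ^ ((8 : ℝ) ^ M / 8) := by
  have hev1 : ∀ᶠ n : ℕ in Filter.atTop, ((7 : ℝ) / 8) ^ n < 1 / (32 * 224) := by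
    have h := tendsto_pow_atTop_nhds_zero_of_lt_one (by norm_num : (0 : ℝ) ≤ 7 / 8) (by norm_num)
    exact h.eventually (gt_mem_nhds (by positivity))
  have hev2 : ∀ᶠ n : ℕ in Filter.atTop, (n : ℝ) * ((3 : ℝ) / 4) ^ n < 1 / (32 * 2 * 13) := by
    have h := tendsto_self_mul_const_pow_of_lt_one (by norm_num : (0 : ℝ) ≤ 3 / 4) (by norm_num)
    exact h.eventually (gt_mem_nhds (by positivity))
  obtain ⟨J2, hJ2⟩ := Filter.eventually_atTop.1 (hev1.and hev2)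
  refine ⟨max J2 1, ?_⟩
  intro J hJ
  obtain ⟨h1, h2⟩ := hJ2 J ((le_max_left _ _).trans hJ)
  have hJ1 : 1 ≤ J := (le_max_right _ _).trans hJ
  have hJr : (1 : ℝ) ≤ J := by exact_mod_cast hJ1
  refine ⟨16 + 4 * J, ?_⟩
  intro M hM m hm
  have hA : (∏ d ∈ Icc J m, (Real.exp 1 * (4 * (24576 * (8 : ℝ) ^ (M + EE d)) + 1 + (nd M d : ℝ))
      / nd M d) ^ nd M d) ≤ 2 ^ (∑ d ∈ Icc J m, (28 * (8 : ℝ) ^ M * (7 / 8) ^ d + 28 * (7 / 6) ^ d)) :=
    prod_rpow _ _ _ (fun d _ => by positivity) (fun d _ => part_d M d)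
  have hB : (∏ s ∈ range (Nat.size M + 1), (Real.exp 1 * (4 * (6 * (8 : ℝ) ^ (M + 2 ^ s)) + 1
        + (ns M J s : ℝ)) / ns M J s) ^ ns M J s)
      ≤ 2 ^ (∑ s ∈ range (Nat.size M + 1), ((12 + (J : ℝ)) * (8 : ℝ) ^ M * (3 / 4) ^ J * (1 / 2) ^ s
        + (12 + (J : ℝ)) * 2 ^ s)) :=
    prod_rpow _ _ _ (fun s _ => by positivity) (fun s _ => part_s M J s)
  have hB0 : 0 ≤ (∏ s ∈ range (Nat.size M + 1), (Real.exp 1 * (4 * (6 * (8 : ℝ) ^ (M + 2 ^ s)) + 1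
        + (ns M J s : ℝ)) / ns M J s) ^ ns M J s) :=
    Finset.prod_nonneg (fun s _ => by positivity)
  refine (mul_le_mul hA hB hB0 (by positivity)).trans ?_
  rw [← Real.rpow_add (by norm_num)]
  refine Real.rpow_le_rpow_of_exponent_le (by norm_num) ?_
  rw [Finset.sum_add_distrib, Finset.sum_add_distrib, ← Finset.mul_sum, ← Finset.mul_sum,
    ← Finset.mul_sum, ← Finset.mul_sum]
  have h8 : (0 : ℝ) < 8 ^ M := by positivity
  -- first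
  have e1 : 28 * (8 : ℝ) ^ M * ∑ d ∈ Icc J m, ((7 : ℝ) / 8) ^ d ≤ 8 ^ M / 32 := by
    have h3 := geo_Icc (7 / 8) (by norm_num) (by norm_num) J m
    have h4 : ((7 : ℝ) / 8) ^ J / (1 - 7 / 8) = 8 * (7 / 8) ^ J := by ring
    rw [h4] at h3
    calc 28 * (8 : ℝ) ^ M * ∑ d ∈ Icc J m, ((7 : ℝ) / 8) ^ d ≤ 28 * 8 ^ M * (8 * (7 / 8) ^ J) :=
          mul_le_mul_of_nonneg_left h3 (by positivity)
      _ ≤ 28 * 8 ^ M * (8 * (1 / (32 * 224))) := by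
          refine mul_le_mul_of_nonneg_left ?_ (by positivity)
          linarith
      _ = 8 ^ M / 32 := by ring
  -- second
  have e2 : 28 * ∑ d ∈ Icc J m, ((7 : ℝ) / 6) ^ d ≤ 8 ^ M / 32 := by
    have h3 : ∑ d ∈ Icc J m, ((7 : ℝ) / 6) ^ d ≤ (M + 1) * 2 ^ M := by
      have h4 : ∀ d ∈ Icc J m, ((7 : ℝ) / 6) ^ d ≤ 2 ^ M := by
        intro d hd
        have h5 : d ≤ M := (Finset.mem_Icc.1 hd).2.trans hm
        exact (pow_le_pow_left₀ (by norm_num) (by norm_num) d).trans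
          (pow_le_pow_right₀ (by norm_num) h5)
      refine (Finset.sum_le_sum h4).trans ?_
      rw [Finset.sum_const, nsmul_eq_mul, Nat.card_Icc]
      refine mul_le_mul_of_nonneg_right ?_ (by positivity)
      exact_mod_cast (by omega : m + 1 - J ≤ M + 1)
    have h4 : ((M : ℝ) + 1) ≤ 2 ^ M := by exact_mod_cast (Nat.lt_two_pow_self (n := M))
    have h5 : (896 : ℝ) ≤ 2 ^ M := by
      have h6 : (2 : ℝ) ^ 16 ≤ 2 ^ M := pow_le_pow_right₀ (by norm_num) (by omega)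
      exact le_trans (by norm_num) h6
    have h6 : (8 : ℝ) ^ M = 2 ^ M * 2 ^ M * 2 ^ M := by
      rw [← mul_pow, ← mul_pow]
      norm_num
    have h7 : (0 : ℝ) < 2 ^ M := by positivity
    have h9 : ((M : ℝ) + 1) * 2 ^ M ≤ 2 ^ M * 2 ^ M := mul_le_mul_of_nonneg_right h4 h7.le
    have h10 : 896 * ((2 : ℝ) ^ M * 2 ^ M) ≤ 2 ^ M * (2 ^ M * 2 ^ M) :=
      mul_le_mul_of_nonneg_right h5 (by positivity)
    rw [h6]
    linarith
  -- third
  have e3 : (12 + (J : ℝ)) * (8 : ℝ) ^ M * (3 / 4) ^ J * ∑ s ∈ range (Nat.size M + 1), ((1 : ℝ) / 2) ^ s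
      ≤ 8 ^ M / 32 := by
    have h3 := sum_range_half (Nat.size M + 1)
    have h4 : (12 + (J : ℝ)) ≤ 13 * J := by linarith
    have hJ4 : (0 : ℝ) < (3 / 4) ^ J := by positivity
    calc (12 + (J : ℝ)) * (8 : ℝ) ^ M * (3 / 4) ^ J * ∑ s ∈ range (Nat.size M + 1), ((1 : ℝ) / 2) ^ s
        ≤ (12 + (J : ℝ)) * (8 : ℝ) ^ M * (3 / 4) ^ J * 2 :=
          mul_le_mul_of_nonneg_left h3 (by positivity)
      _ = (12 + (J : ℝ)) * ((8 : ℝ) ^ M * (3 / 4) ^ J * 2) := by ring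
      _ ≤ (13 * J) * ((8 : ℝ) ^ M * (3 / 4) ^ J * 2) :=
          mul_le_mul_of_nonneg_right h4 (by positivity)
      _ = (2 * 13 * 8 ^ M) * (J * (3 / 4) ^ J) := by ring
      _ ≤ (2 * 13 * 8 ^ M) * (1 / (32 * 2 * 13)) :=
          mul_le_mul_of_nonneg_left h2.le (by positivity)
      _ = 8 ^ M / 32 := by ring
  -- fourth
  have e4 : (12 + (J : ℝ)) * ∑ s ∈ range (Nat.size M + 1), (2 : ℝ) ^ s ≤ 8 ^ M / 32 := by
    have h3 := sum_range_two (Nat.size M + 1)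
    have h4 : 2 ^ (Nat.size M + 1) ≤ 4 * M := by
      have hMpos : 0 < M := by omega
      have h5 : 0 < Nat.size M := Nat.size_pos.2 hMpos
      have h6 : 2 ^ (Nat.size M - 1) ≤ M := by
        apply Nat.lt_size.1
        omega
      have h7 : Nat.size M + 1 = (Nat.size M - 1) + 2 := by omega
      rw [h7, pow_add]
      omega
    have h4' : (2 : ℝ) ^ (Nat.size M + 1) ≤ 4 * M := by exact_mod_cast h4
    have h5 : (12 + (J : ℝ)) ≤ M := by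
      exact_mod_cast (by omega : 12 + J ≤ M)
    have h6 : (M : ℝ) ≤ 2 ^ M := by exact_mod_cast (Nat.lt_two_pow_self (n := M)).le
    have h7 : (128 : ℝ) ≤ 2 ^ M := by
      have h8 : (2 : ℝ) ^ 16 ≤ 2 ^ M := pow_le_pow_right₀ (by norm_num) (by omega)
      exact le_trans (by norm_num) h8
    have h9 : (8 : ℝ) ^ M = 2 ^ M * 2 ^ M * 2 ^ M := by
      rw [← mul_pow, ← mul_pow]
      norm_num
    have hM0 : (0 : ℝ) ≤ M := Nat.cast_nonneg _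
    have hp : (0 : ℝ) < 2 ^ M := by positivity
    calc (12 + (J : ℝ)) * ∑ s ∈ range (Nat.size M + 1), (2 : ℝ) ^ s
        ≤ (12 + (J : ℝ)) * (4 * M) := mul_le_mul_of_nonneg_left (h3.trans h4') (by positivity)
      _ ≤ M * (4 * M) := mul_le_mul_of_nonneg_right h5 (by positivity)
      _ ≤ 2 ^ M * (4 * 2 ^ M) := by
          refine mul_le_mul h6 ?_ (by positivity) (by positivity)
          linarith
      _ ≤ 8 ^ M / 32 := by
          rw [h9]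
          have h10 : 128 * ((2 : ℝ) ^ M * 2 ^ M) ≤ 2 ^ M * (2 ^ M * 2 ^ M) :=
            mul_le_mul_of_nonneg_right h7 (by positivity)
          linarith
  linarith

end Pool.Agent.H72.CP
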