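import Pool.Agent.H72.CP.Pat

set_option autoImplicit false

/-! Patterns near a centre plus a real part of a sparse complex combination. -/

open Finset

namespace Pool.Agent.H72.CP

open Pool.Agent.H75.MT

section

variable {Y : Type*} [Fintype Y] [DecidableEq Y]

lemma bsum_mono_left (n m r : ℕ) (h : n ≤ m) : bsum n r ≤ bsum m r := by
  unfold bsum
  exact Finset.sum_le_sum (fun i _ => Nat.choose_le_choose i h)

lemma card_small_gen {σ : Type*} (r : ℕ) (X : Finset σ) :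
    #(X.powerset.filter (fun D => #D ≤ r)) ≤ bsum #X r := by
  classical
  have h1 : X.powerset.filter (fun D => #D ≤ r)
      ⊆ (Finset.Iic r).biUnion (fun k => X.powersetCard k) := by
    intro D hD
    simp only [mem_filter, mem_powerset] at hD
    simp only [mem_biUnion, mem_Iic, mem_powersetCard]
    exact ⟨#D, hD.2, hD.1, rfl⟩
  refine (Finset.card_le_card h1).trans (Finset.card_biUnion_le.trans ?_)
  unfold bsum
  exact Finset.sum_le_sum (fun k _ => (Finset.card_powersetCard k X).le)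

/-- the real space spanned by the real and imaginary parts -/
noncomputable def Fsp {σ : Type*} [DecidableEq σ] (v : σ → Y → ℂ) (D : Finset σ) : Submodule ℝ (Y → ℝ) :=
  Submodule.span ℝ (((D.image (fun x y => (v x y).re)) ∪ (D.image (fun x y => (v x y).im)) :
    Finset (Y → ℝ)) : Set (Y → ℝ))

lemma Fsp_rank {σ : Type*} [DecidableEq σ] (v : σ → Y → ℂ) (D : Finset σ) :
    Module.finrank ℝ (Fsp v D) ≤ 2 * #D := by
  classical
  unfold Fsp
  refine (finrank_span_finset_le_card _).trans ?_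
  refine (Finset.card_union_le _ _).trans ?_
  have h1 : #(D.image (fun x y => (v x y).re)) ≤ #D := Finset.card_image_le
  have h2 : #(D.image (fun x y => (v x y).im)) ≤ #D := Finset.card_image_le
  omega

lemma Fsp_mem {σ : Type*} [DecidableEq σ] (v : σ → Y → ℂ) (D : Finset σ) (z : σ → ℂ) :
    (fun y => (∑ x ∈ D, z x * v x y).re) ∈ Fsp v D := by
  classical
  have h : (fun y => (∑ x ∈ D, z x * v x y).re)
      = ∑ x ∈ D, ((z x).re • (fun y => (v x y).re) - (z x).im • (fun y => (v x y).im)) := by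
    funext y
    rw [Complex.re_sum, Finset.sum_apply]
    refine Finset.sum_congr rfl (fun x _ => ?_)
    simp [Complex.mul_re]
  rw [h]
  refine Submodule.sum_mem _ (fun x hx => Submodule.sub_mem _ ?_ ?_)
  · refine Submodule.smul_mem _ _ (Submodule.subset_span ?_)
    rw [Finset.coe_union]
    left
    exact Finset.mem_coe.2 (Finset.mem_image_of_mem (fun x y => (v x y).re) hx)
  · refine Submodule.smul_mem _ _ (Submodule.subset_span ?_)
    rw [Finset.coe_union]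
    right
    exact Finset.mem_coe.2 (Finset.mem_image_of_mem (fun x y => (v x y).im) hx)

theorem pat_fin {M : ℕ} (hM : 8 ≤ M) (hY : Fintype.card Y = 8 ^ M) {κ σ : Type*} [DecidableEq σ]
    (K : Finset κ) (hK : (#K : ℝ) ≤ 2 ^ ((8 : ℝ) ^ M / 8)) (a : κ → Y → ℝ) (X : Finset σ)
    (hX : #X ≤ 64 * 8 ^ M) (v : σ → Y → ℂ) :
    ∃ PP : Finset (Finset Y), (#PP : ℝ) ≤ 2 ^ ((8 : ℝ) ^ M / 4) ∧ ∀ s : Finset Y, ∀ k ∈ K,
      ∀ D ⊆ X, #D ≤ 8 ^ (M - 4) → ∀ z : σ → ℂ,
        ∑ y, |sg s y - a k y - (∑ x ∈ D, z x * v x y).re| ≤ 192 * 8 ^ M / 2 ^ 20 → s ∈ PP := by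
  classical
  set S : Finset (Finset σ) := X.powerset.filter (fun D => #D ≤ 8 ^ (M - 4)) with hS
  set r : ℝ := 192 * 8 ^ M / 2 ^ 20 with hr
  set PP : Finset (Finset Y) := univ.filter (fun s => ∃ k ∈ K, ∃ j ∈ S, ∃ f ∈ Fsp v j,
    ∑ y, |sg s y - a k y - f y| ≤ r) with hPP
  have h1 := pat_count K a S (Fsp v) (2 * 8 ^ (M - 4)) (fun j hj => ?_) r PP
    (fun s hs => (Finset.mem_filter.1 hs).2)
  · refine ⟨PP, ?_, ?_⟩
    · rw [hY] at h1
      have h8 : (8 : ℕ) ^ M = 8 ^ (M - 4) * 4096 := by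
        have : M = (M - 4) + 4 := by omega
        conv_lhs => rw [this, pow_add]
        norm_num
      have h8' : 4096 ≤ 8 ^ (M - 4) := by
        have : (8 : ℕ) ^ 4 ≤ 8 ^ (M - 4) := Nat.pow_le_pow_right (by norm_num) (by omega)
        exact le_trans (by norm_num) this
      have hSc : #S ≤ bsum (64 * 8 ^ M) (8 ^ (M - 4)) :=
        (card_small_gen _ X).trans (bsum_mono_left _ _ _ hX)
      have he := Real.exp_one_lt_d9
      have hb1 : ((bsum (64 * 8 ^ M) (8 ^ (M - 4)) : ℕ) : ℝ) ≤ 2 ^ ((1 / 2048 : ℝ) * ((64 * 8 ^ M : ℕ) : ℝ)) := by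
        apply bsum_le_two _ _ 262144 _ (by norm_num) (by rw [h8]; omega) _ (by norm_num)
        have : (1 / 2048 : ℝ) * ((262144 : ℕ) : ℝ) = ((128 : ℕ) : ℝ) := by norm_num
        rw [this, Real.rpow_natCast]
        push_cast
        norm_num
        linarith
      have hb2 : ((bsum (8 ^ M) (2 * 8 ^ (M - 4) + 1) : ℕ) : ℝ) ≤ 2 ^ ((1 / 32 : ℝ) * ((8 ^ M : ℕ) : ℝ)) := by
        apply bsum_le_two _ _ 1024 _ (by norm_num) (by rw [h8]; omega) _ (by norm_num)
        have : (1 / 32 : ℝ) * ((1024 : ℕ) : ℝ) = ((32 : ℕ) : ℝ) := by norm_num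
        rw [this, Real.rpow_natCast]
        push_cast
        norm_num
        linarith
      have hfl : 4096 * ⌊r⌋₊ ≤ 8 ^ M := by
        have h2 : ((4096 * ⌊r⌋₊ : ℕ) : ℝ) ≤ ((8 ^ M : ℕ) : ℝ) := by
          push_cast
          have h3 : (⌊r⌋₊ : ℝ) ≤ r := Nat.floor_le (by rw [hr]; positivity)
          have h4 : (0 : ℝ) < 8 ^ M := by positivity
          have h5 : r ≤ 192 * 8 ^ M / 2 ^ 20 := le_of_eq hr
          linarith
        exact_mod_cast h2
      have hb3 : ((bsum (8 ^ M) ⌊r⌋₊ : ℕ) : ℝ) ≤ 2 ^ ((1 / 32 : ℝ) * ((8 ^ M : ℕ) : ℝ)) := by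
        apply bsum_le_two _ _ 4096 _ (by norm_num) hfl _ (by norm_num)
        have : (1 / 32 : ℝ) * ((4096 : ℕ) : ℝ) = ((128 : ℕ) : ℝ) := by norm_num
        rw [this, Real.rpow_natCast]
        push_cast
        norm_num
        linarith
      have h2 : (#PP : ℝ) ≤ #K * #S * ((bsum (8 ^ M) (2 * 8 ^ (M - 4) + 1) : ℕ) * (bsum (8 ^ M) ⌊r⌋₊ : ℕ)) := by
        exact_mod_cast h1
      have hSc' : (#S : ℝ) ≤ 2 ^ ((1 / 2048 : ℝ) * ((64 * 8 ^ M : ℕ) : ℝ)) :=
        le_trans (by exact_mod_cast hSc) hb1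
      have h5 : (#K : ℝ) * #S * ((bsum (8 ^ M) (2 * 8 ^ (M - 4) + 1) : ℕ) * (bsum (8 ^ M) ⌊r⌋₊ : ℕ))
          ≤ 2 ^ ((8 : ℝ) ^ M / 8) * 2 ^ ((1 / 2048 : ℝ) * ((64 * 8 ^ M : ℕ) : ℝ))
            * (2 ^ ((1 / 32 : ℝ) * ((8 ^ M : ℕ) : ℝ)) * 2 ^ ((1 / 32 : ℝ) * ((8 ^ M : ℕ) : ℝ))) := by
        gcongr
      refine h2.trans (h5.trans ?_)
      rw [← Real.rpow_add (by norm_num), ← Real.rpow_add (by norm_num), ← Real.rpow_add (by norm_num)]
      refine Real.rpow_le_rpow_of_exponent_le (by norm_num) ?_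
      push_cast
      have h4 : (0 : ℝ) < 8 ^ M := by positivity
      linarith
    · intro s k hk D hD hDc z hz
      refine Finset.mem_filter.2 ⟨mem_univ _, k, hk, D, ?_, _, Fsp_mem v D z, hz⟩
      exact Finset.mem_filter.2 ⟨Finset.mem_powerset.2 hD, hDc⟩
  · have h3 := (Finset.mem_filter.1 hj).2
    have h4 := Fsp_rank v j
    omega

end

end Pool.Agent.H72.CP
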