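import Mathlib

/-!
Kraft codes: a function `f` on a set `S` of objects has cost `c` (in bits) if there is a
subprobability weight `w` on finitely many values with `2 ^ (-c g) ≤ w (f g)` for all `g` in `S`.
-/

open Finset

namespace Pool.Agent.H72.CP

/-- `Kr S f c`: the function `f` on `S` can be described with `c g` bits. -/
def Kr {G α : Type*} (S : Set G) (f : G → α) (c : G → ℝ) : Prop :=
  ∃ (F : Finset α) (w : α → ℝ), (∀ a, 0 ≤ w a) ∧ ∑ a ∈ F, w a ≤ 1 ∧
    ∀ g ∈ S, f g ∈ F ∧ (2 : ℝ) ^ (-c g) ≤ w (f g)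

lemma Kr.mono {G α : Type*} {S T : Set G} {f : G → α} {c c' : G → ℝ} (h : Kr S f c)
    (hT : T ⊆ S) (hc : ∀ g ∈ T, c g ≤ c' g) : Kr T f c' := by
  obtain ⟨F, w, hw, hs, hF⟩ := h
  refine ⟨F, w, hw, hs, fun g hg => ⟨(hF g (hT hg)).1, ?_⟩⟩
  refine le_trans ?_ (hF g (hT hg)).2
  exact Real.rpow_le_rpow_of_exponent_le (by norm_num) (neg_le_neg (hc g hg))

/-- Post-composition does not cost anything. -/
lemma Kr.map {G α β : Type*} {S : Set G} {f : G → α} {c : G → ℝ} (h : Kr S f c) (φ : α → β) :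
    Kr S (fun g => φ (f g)) c := by
  classical
  obtain ⟨F, w, hw, hs, hF⟩ := h
  refine ⟨F.image φ, fun b => ∑ a ∈ F.filter (fun a => φ a = b), w a,
    fun b => Finset.sum_nonneg (fun a _ => hw a), ?_, ?_⟩
  · rw [← Finset.sum_fiberwise_of_maps_to (s := F) (t := F.image φ) (g := φ)
      (fun a ha => Finset.mem_image_of_mem φ ha) w] at hs
    exact hs
  · intro g hg
    obtain ⟨h1, h2⟩ := hF g hg
    refine ⟨Finset.mem_image_of_mem φ h1, h2.trans ?_⟩
    exact Finset.single_le_sum (f := w) (fun a _ => hw a)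
      (Finset.mem_filter.2 ⟨h1, rfl⟩)

lemma Kr.congr {G α : Type*} {S : Set G} {f f' : G → α} {c : G → ℝ} (h : Kr S f c)
    (hf : ∀ g ∈ S, f g = f' g) : Kr S f' c := by
  obtain ⟨F, w, hw, hs, hF⟩ := h
  refine ⟨F, w, hw, hs, fun g hg => ?_⟩
  rw [← hf g hg]
  exact hF g hg

/-- Chain rule: if `f` costs `c` and, on every fibre of `f`, `f2` costs `c2`, then the pair costs
`c + c2`. -/
lemma Kr.chain {G α β : Type*} {S : Set G} {f : G → α} {c : G → ℝ} (h : Kr S f c)
    {f2 : G → β} {c2 : G → ℝ} (h2 : ∀ a, Kr {g | g ∈ S ∧ f g = a} f2 c2) :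
    Kr S (fun g => (f g, f2 g)) (fun g => c g + c2 g) := by
  classical
  obtain ⟨F, w, hw, hs, hF⟩ := h
  choose F2 w2 hw2 hs2 hF2 using h2
  refine ⟨F.sigma (fun a => F2 a) |>.image (fun p => (p.1, p.2)), fun p => w p.1 * w2 p.1 p.2,
    fun p => mul_nonneg (hw _) (hw2 _ _), ?_, ?_⟩
  · rw [Finset.sum_image]
    · rw [Finset.sum_sigma]
      calc ∑ a ∈ F, ∑ b ∈ F2 a, w a * w2 a b = ∑ a ∈ F, w a * ∑ b ∈ F2 a, w2 a b := by
            simp only [Finset.mul_sum]
        _ ≤ ∑ a ∈ F, w a * 1 :=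
            Finset.sum_le_sum (fun a _ => mul_le_mul_of_nonneg_left (hs2 a) (hw a))
        _ ≤ 1 := by simpa using hs
    · rintro ⟨a, b⟩ _ ⟨a', b'⟩ _ hab
      simp only [Prod.mk.injEq] at hab
      obtain ⟨rfl, rfl⟩ := hab
      rfl
  · intro g hg
    obtain ⟨h1, h3⟩ := hF g hg
    obtain ⟨h4, h5⟩ := hF2 (f g) g ⟨hg, rfl⟩
    refine ⟨Finset.mem_image.2 ⟨⟨f g, f2 g⟩, Finset.mem_sigma.2 ⟨h1, h4⟩, rfl⟩, ?_⟩
    simp only
    rw [neg_add, Real.rpow_add (by norm_num)]
    exact mul_le_mul h3 h5 (Real.rpow_nonneg (by norm_num) _) (hw _)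

/-- The number of values is at most `2 ^ C` if the cost is at most `C`. -/
lemma Kr.card_le {G α : Type*} {S : Set G} {f : G → α} {c : G → ℝ} (h : Kr S f c) (C : ℝ)
    (hc : ∀ g ∈ S, c g ≤ C) : ∃ F : Finset α, (∀ g ∈ S, f g ∈ F) ∧ (F.card : ℝ) ≤ 2 ^ C := by
  classical
  obtain ⟨F, w, hw, hs, hF⟩ := h
  refine ⟨F.filter (fun a => (2 : ℝ) ^ (-C) ≤ w a), fun g hg => ?_, ?_⟩
  · refine Finset.mem_filter.2 ⟨(hF g hg).1, le_trans ?_ (hF g hg).2⟩
    exact Real.rpow_le_rpow_of_exponent_le (by norm_num) (neg_le_neg (hc g hg))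
  · have h1 : ((F.filter (fun a => (2 : ℝ) ^ (-C) ≤ w a)).card : ℝ) * (2 : ℝ) ^ (-C) ≤ 1 := by
      rw [← nsmul_eq_mul]
      refine (Finset.card_nsmul_le_sum _ w _ (fun a ha => (Finset.mem_filter.1 ha).2)).trans ?_
      exact (Finset.sum_le_sum_of_subset_of_nonneg (Finset.filter_subset _ _)
        (fun a _ _ => hw a)).trans hs
    have h2 : (0 : ℝ) < 2 ^ C := Real.rpow_pos_of_pos (by norm_num) _
    have h3 : (2 : ℝ) ^ (-C) * 2 ^ C = 1 := by
      rw [← Real.rpow_add (by norm_num), neg_add_cancel, Real.rpow_zero]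
    have h4 := mul_le_mul_of_nonneg_right h1 h2.le
    rw [mul_assoc, h3, mul_one, one_mul] at h4
    exact h4

/-- Uniform code: values in a finite set with at most `2 ^ c` elements cost `c` bits. -/
lemma kr_of_card {G α : Type*} (S : Set G) (f : G → α) (F : Finset α)
    (hF : ∀ g ∈ S, f g ∈ F) (c : ℝ) (hc : (F.card : ℝ) ≤ 2 ^ c) : Kr S f (fun _ => c) := by
  have h2 : (0 : ℝ) < 2 ^ c := Real.rpow_pos_of_pos (by norm_num) _
  refine ⟨F, fun _ => (2 : ℝ) ^ (-c), fun _ => Real.rpow_nonneg (by norm_num) _, ?_,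
    fun g hg => ⟨hF g hg, le_refl _⟩⟩
  rw [Finset.sum_const, nsmul_eq_mul, Real.rpow_neg (by norm_num), ← div_eq_mul_inv,
    div_le_one h2]
  exact hc

/-- Case distinction costs one bit. -/
lemma Kr.cases {G α : Type*} {S : Set G} {f : G → α} (P : G → Prop) {c : G → ℝ}
    (h1 : Kr {g | g ∈ S ∧ P g} f c) (h2 : Kr {g | g ∈ S ∧ ¬ P g} f c) :
    Kr S f (fun g => 1 + c g) := by
  classical
  obtain ⟨F1, w1, hw1, hs1, hF1⟩ := h1
  obtain ⟨F2, w2, hw2, hs2, hF2⟩ := h2
  have hpow : ∀ x : ℝ, (2 : ℝ) ^ (-(1 + x)) = (2 : ℝ) ^ (-x) / 2 := by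
    intro x
    rw [neg_add, Real.rpow_add (by norm_num), Real.rpow_neg (by norm_num), Real.rpow_one]
    ring
  refine ⟨F1 ∪ F2, fun a => ((if a ∈ F1 then w1 a else 0) + (if a ∈ F2 then w2 a else 0)) / 2,
    fun a => ?_, ?_, ?_⟩
  · have := hw1 a
    have := hw2 a
    dsimp only
    split_ifs <;> positivity
  · rw [← Finset.sum_div, Finset.sum_add_distrib, Finset.sum_ite_mem, Finset.sum_ite_mem,
      Finset.inter_eq_right.2 Finset.subset_union_left,
      Finset.inter_eq_right.2 Finset.subset_union_right]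
    linarith
  · intro g hg
    simp only
    rw [hpow]
    by_cases hP : P g
    · obtain ⟨h3, h4⟩ := hF1 g ⟨hg, hP⟩
      refine ⟨Finset.mem_union_left _ h3, ?_⟩
      rw [if_pos h3]
      have := hw2 (f g)
      split_ifs <;> linarith
    · obtain ⟨h3, h4⟩ := hF2 g ⟨hg, hP⟩
      refine ⟨Finset.mem_union_right _ h3, ?_⟩
      rw [if_pos h3]
      have := hw1 (f g)
      split_ifs <;> linarith

/-- Case distinction with a different cost in the two cases. -/
lemma Kr.ite {G α : Type*} {S : Set G} {f : G → α} (P : G → Prop) [DecidablePred P]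
    {c1 c2 : G → ℝ} (h1 : Kr {g | g ∈ S ∧ P g} f c1) (h2 : Kr {g | g ∈ S ∧ ¬ P g} f c2) :
    Kr S f (fun g => 1 + (if P g then c1 g else c2 g)) := by
  apply Kr.cases P
  · refine h1.mono (le_refl _) (fun g hg => ?_)
    rw [if_pos hg.2]
  · refine h2.mono (le_refl _) (fun g hg => ?_)
    rw [if_neg hg.2]

/-! ### Counting -/

/-- `n ^ n ≤ e ^ n n!`. -/
lemma pow_self_le (n : ℕ) : (n : ℝ) ^ n ≤ Real.exp n * n.factorial := by
  have h := Real.pow_div_factorial_le_exp (n : ℝ) (Nat.cast_nonneg n) n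
  rwa [div_le_iff₀ (by exact_mod_cast Nat.factorial_pos n)] at h

/-- `C(m, n) ≤ (e m / n) ^ n`. -/
lemma choose_le (m n : ℕ) (hn : 0 < n) :
    ((m.choose n : ℕ) : ℝ) ≤ (Real.exp 1 * m / n) ^ n := by
  have h1 : ((m.choose n : ℕ) : ℝ) ≤ (m : ℝ) ^ n / n.factorial := Nat.choose_le_pow_div n m
  refine h1.trans ?_
  have hn' : (0 : ℝ) < n := by exact_mod_cast hn
  have h2 := pow_self_le n
  rw [div_pow, mul_pow, ← Real.exp_nat_mul, mul_one, div_le_div_iff₀ (by positivity)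
    (by positivity)]
  calc (m : ℝ) ^ n * (n : ℝ) ^ n ≤ (m : ℝ) ^ n * (Real.exp n * n.factorial) :=
        mul_le_mul_of_nonneg_left h2 (by positivity)
    _ = Real.exp n * (m : ℝ) ^ n * n.factorial := by ring

/-- `∑_{j ≤ r} C(m, j) ≤ (e m / r) ^ r` for `0 < r ≤ m`. -/
lemma sum_choose_le (m r : ℕ) (hr : 0 < r) (hrm : r ≤ m) :
    ∑ j ∈ Finset.range (r + 1), ((m.choose j : ℕ) : ℝ) ≤ (Real.exp 1 * m / r) ^ r := by
  have hr' : (0 : ℝ) < r := by exact_mod_cast hr
  have hm' : (0 : ℝ) < m := by exact_mod_cast lt_of_lt_of_le hr hrm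
  have hrm' : (r : ℝ) ≤ m := by exact_mod_cast hrm
  have hx : (r : ℝ) / m ≤ 1 := (div_le_one hm').2 hrm'
  have hx0 : (0 : ℝ) < (r : ℝ) / m := by positivity
  have h1 : (∑ j ∈ Finset.range (r + 1), ((m.choose j : ℕ) : ℝ)) * ((r : ℝ) / m) ^ r
      ≤ (1 + (r : ℝ) / m) ^ m := by
    have h2 : (1 + (r : ℝ) / m) ^ m
        = ∑ j ∈ Finset.range (m + 1), ((r : ℝ) / m) ^ j * ((m.choose j : ℕ) : ℝ) := by
      rw [add_comm (1 : ℝ), add_pow]
      refine Finset.sum_congr rfl (fun j _ => ?_)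
      rw [one_pow, mul_one]
    rw [h2, Finset.sum_mul]
    refine le_trans ?_ (Finset.sum_le_sum_of_subset_of_nonneg
      (Finset.range_subset_range.2 (by omega : r + 1 ≤ m + 1)) (fun j _ _ => by positivity))
    refine Finset.sum_le_sum (fun j hj => ?_)
    rw [mul_comm]
    refine mul_le_mul_of_nonneg_right ?_ (by positivity)
    exact pow_le_pow_of_le_one hx0.le hx (by rw [Finset.mem_range] at hj; omega)
  have h3 : (1 + (r : ℝ) / m) ^ m ≤ Real.exp r := by
    have h4 : 1 + (r : ℝ) / m ≤ Real.exp ((r : ℝ) / m) := by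
      rw [add_comm]; exact Real.add_one_le_exp _
    calc (1 + (r : ℝ) / m) ^ m ≤ Real.exp ((r : ℝ) / m) ^ m :=
          pow_le_pow_left₀ (by positivity) h4 m
      _ = Real.exp r := by
          rw [← Real.exp_nat_mul]
          congr 1
          field_simp
  have h5 := h1.trans h3
  have h6 : (0 : ℝ) < ((r : ℝ) / m) ^ r := by positivity
  rw [← le_div_iff₀ h6] at h5
  refine h5.trans (le_of_eq ?_)
  rw [div_pow, mul_div_assoc, mul_pow, ← Real.exp_nat_mul, mul_one, div_pow]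
  field_simp

/-- Number of subsets of `X` with at most `r` elements. -/
lemma card_small_subsets {Y : Type*} [DecidableEq Y] (X : Finset Y) (r : ℕ) (hr : 0 < r)
    (hrm : r ≤ X.card) :
    (((X.powerset.filter (fun D => D.card ≤ r)).card : ℕ) : ℝ)
      ≤ (Real.exp 1 * X.card / r) ^ r := by
  refine le_trans ?_ (sum_choose_le X.card r hr hrm)
  have h1 : X.powerset.filter (fun D => D.card ≤ r)
      ⊆ (Finset.range (r + 1)).biUnion (fun j => X.powersetCard j) := by
    intro D hD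
    rw [Finset.mem_filter, Finset.mem_powerset] at hD
    rw [Finset.mem_biUnion]
    exact ⟨D.card, Finset.mem_range.2 (by omega), Finset.mem_powersetCard.2 ⟨hD.1, rfl⟩⟩
  have h2 := (Finset.card_le_card h1).trans Finset.card_biUnion_le
  have h3 : ∑ j ∈ Finset.range (r + 1), (X.powersetCard j).card
      = ∑ j ∈ Finset.range (r + 1), X.card.choose j :=
    Finset.sum_congr rfl (fun j _ => Finset.card_powersetCard j X)
  rw [h3] at h2
  exact_mod_cast h2

/-- Symmetric functions of `n` letters from an alphabet `A` take at most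
`(e (|A| + n) / n) ^ n` values. -/
lemma card_multiset_le {A β : Type*} [Fintype A] [DecidableEq A] (n : ℕ) (hn : 0 < n)
    (Φ : Multiset A → β) :
    ∃ F : Finset β, (∀ p : Fin n → A, Φ (Finset.univ.val.map p) ∈ F) ∧
      (F.card : ℝ) ≤ (Real.exp 1 * ((Fintype.card A : ℝ) + n) / n) ^ n := by
  classical
  refine ⟨(univ : Finset (Sym A n)).image (fun s : Sym A n => Φ s.1), fun p => ?_, ?_⟩
  · refine Finset.mem_image.2 ⟨(⟨Finset.univ.val.map p, ?_⟩ : Sym A n), Finset.mem_univ _, rfl⟩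
    simp
  · have h1 : (((univ : Finset (Sym A n)).image (fun s : Sym A n => Φ s.1)).card : ℝ)
        ≤ ((Fintype.card (Sym A n) : ℕ) : ℝ) := by
      rw [← Finset.card_univ]
      exact_mod_cast Finset.card_image_le
    refine h1.trans ?_
    rw [Sym.card_sym_eq_choose]
    have h2 : (Fintype.card A + n - 1).choose n ≤ (Fintype.card A + n).choose n :=
      Nat.choose_le_choose n (Nat.sub_le _ _)
    have h3 := choose_le (Fintype.card A + n) n hn
    push_cast at h3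
    refine le_trans ?_ h3
    exact_mod_cast h2

end Pool.Agent.H72.CP
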