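import Pool.Agent.H75.MT.Comb
import Pool.Agent.H72.CP.Kraft

/-!
Counting sign vectors which are close in `L_1` to (known vector) + (low dimensional space).
-/

open Finset

namespace Pool.Agent.H72.CP

open Pool.Agent.H75.MT (sg pat mem_pat bsum bsum_mono card_pat_le card_small)

variable {Y : Type*} [Fintype Y] [DecidableEq Y]

/-- An `L_1` error at most `r` flips at most `r` signs. -/
lemma card_symmDiff_pat (s : Finset Y) (g : Y → ℝ) (r : ℝ)
    (h : ∑ y, |sg s y - g y| ≤ r) : #(symmDiff (pat g) s) ≤ ⌊r⌋₊ := by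
  have h2 : (#(symmDiff (pat g) s) : ℝ) ≤ ∑ y, |sg s y - g y| := by
    rw [Finset.card_eq_sum_ones]
    push_cast
    rw [← Finset.sum_filter_add_sum_filter_not univ (fun y => y ∈ symmDiff (pat g) s)
      (fun y => |sg s y - g y|)]
    have h3 : 0 ≤ ∑ y with y ∉ symmDiff (pat g) s, |sg s y - g y| :=
      Finset.sum_nonneg (fun y _ => abs_nonneg _)
    have h4 : (univ.filter (fun y => y ∈ symmDiff (pat g) s)) = symmDiff (pat g) s := by
      ext y
      simp
    rw [h4]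
    have h5 : ∑ y ∈ symmDiff (pat g) s, (1 : ℝ) ≤ ∑ y ∈ symmDiff (pat g) s, |sg s y - g y| := by
      refine Finset.sum_le_sum (fun y hy => ?_)
      rw [Finset.mem_symmDiff, mem_pat] at hy
      rcases hy with ⟨h6, h7⟩ | ⟨h6, h7⟩
      · unfold sg
        rw [if_neg h7]
        rw [abs_sub_comm]
        refine le_trans ?_ (le_abs_self _)
        linarith
      · unfold sg
        rw [if_pos h6]
        refine le_trans ?_ (le_abs_self _)
        linarith
    linarith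
  exact Nat.le_floor (h2.trans h)

/-- Number of sign vectors within `L_1` distance `r` of one of the affine spaces `a k + F j`. -/
theorem pat_count {κ σ : Type*} (K : Finset κ) (a : κ → Y → ℝ) (S : Finset σ)
    (F : σ → Submodule ℝ (Y → ℝ)) (d : ℕ) (hd : ∀ j ∈ S, Module.finrank ℝ (F j) ≤ d) (r : ℝ)
    (𝒜 : Finset (Finset Y))
    (h : ∀ s ∈ 𝒜, ∃ k ∈ K, ∃ j ∈ S, ∃ f ∈ F j, ∑ y, |sg s y - a k y - f y| ≤ r) :
    #𝒜 ≤ #K * #S * (bsum (Fintype.card Y) (d + 1) * bsum (Fintype.card Y) ⌊r⌋₊) := by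
  classical
  let G : κ × σ → Submodule ℝ (Y → ℝ) := fun p => F p.2 ⊔ Submodule.span ℝ {a p.1}
  let P : κ × σ → Finset (Finset Y) := fun p => univ.filter (fun s => ∃ f ∈ G p, s = pat f)
  let D : Finset (Finset Y) := (univ : Finset Y).powerset.filter (fun D => #D ≤ ⌊r⌋₊)
  have hsub : 𝒜 ⊆ (K ×ˢ S).biUnion
        (fun p => (P p ×ˢ D).image (fun x => symmDiff x.1 x.2)) := by
    intro s hs
    obtain ⟨k, hk, j, hj, f, hf, hfl⟩ := h s hs
    have hsum : ∑ y, |sg s y - (a k + f) y| ≤ r := by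
      refine le_trans (le_of_eq ?_) hfl
      refine Finset.sum_congr rfl (fun y _ => ?_)
      rw [Pi.add_apply, sub_sub]
    rw [Finset.mem_biUnion]
    refine ⟨(k, j), Finset.mem_product.2 ⟨hk, hj⟩, ?_⟩
    rw [Finset.mem_image]
    refine ⟨(pat (a k + f), symmDiff (pat (a k + f)) s), Finset.mem_product.2 ⟨?_, ?_⟩, ?_⟩
    · simp only [P, mem_filter, mem_univ, true_and]
      refine ⟨a k + f, ?_, rfl⟩
      rw [add_comm]
      exact Submodule.add_mem_sup hf (Submodule.mem_span_singleton_self _)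
    · simp only [D, mem_filter, mem_powerset, subset_univ, true_and]
      exact card_symmDiff_pat s _ r hsum
    · simp only
      rw [← symmDiff_assoc, symmDiff_self, bot_symmDiff]
  refine (Finset.card_le_card hsub).trans (Finset.card_biUnion_le.trans ?_)
  have hD : #D ≤ bsum (Fintype.card Y) ⌊r⌋₊ := by
    have := card_small ⌊r⌋₊ (univ : Finset Y)
    rwa [Finset.card_univ] at this
  have hP : ∀ p ∈ K ×ˢ S, #(P p) ≤ bsum (Fintype.card Y) (d + 1) := by
    intro p hp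
    refine card_pat_le (G p) (d + 1) ?_ (P p) ?_
    · refine (Submodule.finrank_add_le_finrank_add_finrank _ _).trans ?_
      exact add_le_add (hd _ (Finset.mem_product.1 hp).2)
        ((finrank_span_le_card _).trans (by simp))
    · intro s hs
      exact (Finset.mem_filter.1 hs).2
  have hfin : ∀ p ∈ K ×ˢ S, #((P p ×ˢ D).image (fun x => symmDiff x.1 x.2))
      ≤ bsum (Fintype.card Y) (d + 1) * bsum (Fintype.card Y) ⌊r⌋₊ := by
    intro p hp
    refine Finset.card_image_le.trans ?_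
    rw [Finset.card_product]
    exact Nat.mul_le_mul (hP p hp) hD
  refine (Finset.sum_le_sum hfin).trans (le_of_eq ?_)
  rw [Finset.sum_const, Finset.card_product, smul_eq_mul]

/-- `bsum N r ≤ (e N / r) ^ r`. -/
lemma bsum_le (N r : ℕ) (hr : 0 < r) (hrN : r ≤ N) :
    ((bsum N r : ℕ) : ℝ) ≤ (Real.exp 1 * N / r) ^ r := by
  refine le_trans (le_of_eq ?_) (sum_choose_le N r hr hrN)
  unfold bsum
  push_cast
  apply Finset.sum_congr _ (fun _ _ => rfl)
  ext j
  simp [Nat.lt_succ_iff]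

/-- `bsum N r ≤ 2 ^ (c N)` if `r ≤ N / q` and `(e q) ^ (1 / q) ≤ 2 ^ c`. -/
lemma bsum_le_two (N r q : ℕ) (c : ℝ) (hq : 0 < q) (hrq : q * r ≤ N)
    (hc : Real.exp 1 * q ≤ (2 : ℝ) ^ (c * q)) (hc0 : 0 ≤ c) :
    ((bsum N r : ℕ) : ℝ) ≤ (2 : ℝ) ^ (c * N) := by
  rcases Nat.eq_zero_or_pos r with rfl | hr
  · have h1 : bsum N 0 = 1 := by
      have h0 : (Finset.Iic 0 : Finset ℕ) = {0} := by decide
      rw [bsum, h0, Finset.sum_singleton, Nat.choose_zero_right]
    rw [h1]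
    push_cast
    exact Real.one_le_rpow (by norm_num) (by positivity)
  have hq' : (0 : ℝ) < q := by exact_mod_cast hq
  set m : ℕ := N / q with hm
  have hrm : r ≤ m := (Nat.le_div_iff_mul_le hq).2 (by rw [mul_comm]; exact hrq)
  have hm0 : 0 < m := lt_of_lt_of_le hr hrm
  have hmN : m ≤ N := Nat.div_le_self _ _
  have hm' : (0 : ℝ) < m := by exact_mod_cast hm0
  have hN0 : (0 : ℝ) < N := by exact_mod_cast lt_of_lt_of_le hm0 hmN
  have h1 : ((bsum N r : ℕ) : ℝ) ≤ ((bsum N m : ℕ) : ℝ) := by exact_mod_cast bsum_mono N hrm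
  refine h1.trans ?_
  -- use the bound with real exponent: sum_j C(N,j) x^j with x = 1/q
  have hx0 : (0 : ℝ) < 1 / q := by positivity
  have hx1 : (1 : ℝ) / q ≤ 1 := by
    rw [div_le_one hq']
    exact_mod_cast hq
  have hmq : (m : ℝ) ≤ N / q := Nat.cast_div_le
  have h2 : ((bsum N m : ℕ) : ℝ) * ((1 : ℝ) / q) ^ ((N : ℝ) / q) ≤ (1 + (1 : ℝ) / q) ^ N := by
    have h3 : (1 + (1 : ℝ) / q) ^ N
        = ∑ j ∈ Finset.range (N + 1), ((1 : ℝ) / q) ^ j * ((N.choose j : ℕ) : ℝ) := by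
      rw [add_comm (1 : ℝ), add_pow]
      refine Finset.sum_congr rfl (fun j _ => ?_)
      rw [one_pow, mul_one]
    rw [h3]
    unfold bsum
    push_cast
    rw [Finset.sum_mul]
    have h4 : Finset.Iic m ⊆ Finset.range (N + 1) := by
      intro j hj
      rw [Finset.mem_Iic] at hj
      rw [Finset.mem_range]
      omega
    refine le_trans ?_ (Finset.sum_le_sum_of_subset_of_nonneg h4 (fun j _ _ => by positivity))
    refine Finset.sum_le_sum (fun j hj => ?_)
    rw [mul_comm]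
    refine mul_le_mul_of_nonneg_right ?_ (by positivity)
    rw [← Real.rpow_natCast]
    refine Real.rpow_le_rpow_of_exponent_ge hx0 hx1 ?_
    rw [Finset.mem_Iic] at hj
    exact le_trans (by exact_mod_cast hj) hmq
  have h5 : (1 + (1 : ℝ) / q) ^ N ≤ Real.exp ((N : ℝ) / q) := by
    have h6 : 1 + (1 : ℝ) / q ≤ Real.exp ((1 : ℝ) / q) := by
      rw [add_comm]; exact Real.add_one_le_exp _
    calc (1 + (1 : ℝ) / q) ^ N ≤ Real.exp ((1 : ℝ) / q) ^ N :=
          pow_le_pow_left₀ (by positivity) h6 N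
      _ = Real.exp ((N : ℝ) / q) := by
          rw [← Real.exp_nat_mul]
          congr 1
          ring
  have h7 := h2.trans h5
  have h8 : ((1 : ℝ) / q) ^ ((N : ℝ) / q) = ((q : ℝ) ^ ((N : ℝ) / q))⁻¹ := by
    rw [one_div, Real.inv_rpow hq'.le]
  rw [h8, ← div_eq_mul_inv, div_le_iff₀ (Real.rpow_pos_of_pos hq' _)] at h7
  refine h7.trans ?_
  have h9 : Real.exp ((N : ℝ) / q) * (q : ℝ) ^ ((N : ℝ) / q)
      = (Real.exp 1 * q) ^ ((N : ℝ) / q) := by
    rw [Real.mul_rpow (Real.exp_pos _).le hq'.le, ← Real.exp_one_rpow ((N : ℝ) / q)]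
  rw [h9]
  refine (Real.rpow_le_rpow (by positivity) hc (by positivity)).trans (le_of_eq ?_)
  rw [← Real.rpow_mul (by norm_num)]
  congr 1
  field_simp

open Classical in
/-- Sign vectors within `L_1` distance `r` of `a + F`. -/
noncomputable def near (F : Submodule ℝ (Y → ℝ)) (a : Y → ℝ) (r : ℝ) : Finset (Finset Y) :=
  univ.filter (fun s => ∃ f ∈ F, ∑ y, |sg s y - a y - f y| ≤ r)

lemma mem_near (F : Submodule ℝ (Y → ℝ)) (a : Y → ℝ) (r : ℝ) (s : Finset Y) :
    s ∈ near F a r ↔ ∃ f ∈ F, ∑ y, |sg s y - a y - f y| ≤ r := by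
  classical
  unfold near
  rw [Finset.mem_filter]
  exact ⟨fun h => h.2, fun h => ⟨mem_univ _, h⟩⟩

/-- Number of sign vectors near `a + F`. -/
lemma card_near (F : Submodule ℝ (Y → ℝ)) (a : Y → ℝ) (r : ℝ) (d : ℕ)
    (hd : Module.finrank ℝ F ≤ d) :
    #(near F a r) ≤ bsum (Fintype.card Y) (d + 1) * bsum (Fintype.card Y) ⌊r⌋₊ := by
  classical
  have h := pat_count (univ : Finset Unit) (fun _ => a) (univ : Finset Unit) (fun _ => F) d
    (fun _ _ => hd) r (near F a r) ?_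
  · simpa using h
  · intro s hs
    obtain ⟨f, hf, h1⟩ := (mem_near F a r s).1 hs
    exact ⟨(), mem_univ _, (), mem_univ _, f, hf, h1⟩

/-- At most `2 ^ (N / 4)` sign vectors are near `a + F` if `dim F + 1` and the error are at most
`N / 64`. -/
theorem card_near_pow (F : Submodule ℝ (Y → ℝ)) (a : Y → ℝ) (r : ℝ) (hr : 0 ≤ r) (d : ℕ)
    (hd : Module.finrank ℝ F ≤ d) (hdN : 64 * (d + 1) ≤ Fintype.card Y)
    (hrN : 64 * r ≤ Fintype.card Y) :
    (#(near F a r) : ℝ) ≤ (2 : ℝ) ^ ((Fintype.card Y : ℝ) / 4) := by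
  have h1 := card_near F a r d hd
  have he : Real.exp 1 * ((64 : ℕ) : ℝ) ≤ (2 : ℝ) ^ ((1 / 8 : ℝ) * ((64 : ℕ) : ℝ)) := by
    have h2 := Real.exp_one_lt_d9
    have h3 : (2 : ℝ) ^ ((1 / 8 : ℝ) * ((64 : ℕ) : ℝ)) = 256 := by
      have h4 : (1 / 8 : ℝ) * ((64 : ℕ) : ℝ) = ((8 : ℕ) : ℝ) := by norm_num
      rw [h4, Real.rpow_natCast]
      norm_num
    rw [h3]
    push_cast
    linarith
  have h5 := bsum_le_two (Fintype.card Y) (d + 1) 64 (1 / 8) (by norm_num) hdN he (by norm_num)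
  have h6 := bsum_le_two (Fintype.card Y) ⌊r⌋₊ 64 (1 / 8) (by norm_num) (by
    have h7 : ((64 * ⌊r⌋₊ : ℕ) : ℝ) ≤ (Fintype.card Y : ℝ) := by
      push_cast
      linarith [Nat.floor_le hr]
    exact_mod_cast h7) he (by norm_num)
  have h8 : (#(near F a r) : ℝ) ≤ ((bsum (Fintype.card Y) (d + 1) : ℕ) : ℝ)
      * ((bsum (Fintype.card Y) ⌊r⌋₊ : ℕ) : ℝ) := by exact_mod_cast h1
  refine h8.trans ((mul_le_mul h5 h6 (Nat.cast_nonneg _) (by positivity)).trans (le_of_eq ?_))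
  rw [← Real.rpow_add (by norm_num)]
  congr 1
  ring

/-- Bit form: if the known data range over a set of at most `2 ^ c` possibilities, at most
`2 ^ (c + N / 4)` sign vectors occur. -/
theorem pat_bits {κ : Type*} (K : Finset κ) (c : ℝ) (hK : (#K : ℝ) ≤ 2 ^ c) (a : κ → Y → ℝ)
    (F : κ → Submodule ℝ (Y → ℝ)) (r : ℝ) (hr : 0 ≤ r) (d : ℕ)
    (hd : ∀ k ∈ K, Module.finrank ℝ (F k) ≤ d) (hdN : 64 * (d + 1) ≤ Fintype.card Y)
    (hrN : 64 * r ≤ Fintype.card Y) :
    ∃ C : Finset (Finset Y), (∀ s, (∃ k ∈ K, ∃ f ∈ F k, ∑ y, |sg s y - a k y - f y| ≤ r) → s ∈ C)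
      ∧ (#C : ℝ) ≤ 2 ^ (c + (Fintype.card Y : ℝ) / 4) := by
  classical
  refine ⟨K.biUnion (fun k => near (F k) (a k) r), ?_, ?_⟩
  · rintro s ⟨k, hk, f, hf, h⟩
    exact Finset.mem_biUnion.2 ⟨k, hk, (mem_near _ _ _ _).2 ⟨f, hf, h⟩⟩
  · have h1 : (#(K.biUnion (fun k => near (F k) (a k) r)) : ℝ)
        ≤ ∑ k ∈ K, (#(near (F k) (a k) r) : ℝ) := by
      exact_mod_cast Finset.card_biUnion_le
    refine h1.trans ((Finset.sum_le_sum (fun k hk =>
      card_near_pow (F k) (a k) r hr d (hd k hk) hdN hrN)).trans ?_)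
    rw [Finset.sum_const, nsmul_eq_mul, Real.rpow_add (by norm_num)]
    exact mul_le_mul_of_nonneg_right hK (by positivity)

end Pool.Agent.H72.CP
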