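import Mathlib

/-!
Hoeffding sampling for finite weights: a signed vector of small L1 norm is well approximated, on
all but few test functionals, by an average of point masses.
-/

open Finset

namespace Pool.Agent.H72.CP

/-- Hoeffding's lemma for finite weights. -/
lemma hoeff_one {Ω : Type*} [Fintype Ω] (w : Ω → ℝ) (hw : ∀ o, 0 ≤ w o) (hs : ∑ o, w o = 1)
    (X : Ω → ℝ) (B : ℝ) (hX : ∀ o, |X o| ≤ B) (t : ℝ) :
    ∑ o, w o * Real.exp (t * (X o - ∑ o, w o * X o)) ≤ Real.exp (t ^ 2 * B ^ 2 / 2) := by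
  classical
  letI : MeasurableSpace Ω := ⊤
  have hB : 0 ≤ B := by
    obtain ⟨o, -, -⟩ : ∃ o ∈ (univ : Finset Ω), w o ≠ 0 := by
      by_contra h
      push Not at h
      rw [Finset.sum_eq_zero h] at hs
      norm_num at hs
    exact (abs_nonneg _).trans (hX o)
  set P : MeasureTheory.Measure Ω := ∑ o, ENNReal.ofReal (w o) • MeasureTheory.Measure.dirac o
    with hP
  haveI : MeasureTheory.IsProbabilityMeasure P := by
    constructor
    rw [hP, MeasureTheory.Measure.coe_finset_sum, Finset.sum_apply]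
    simp only [MeasureTheory.Measure.smul_apply, MeasureTheory.measure_univ, smul_eq_mul, mul_one]
    rw [← ENNReal.ofReal_sum_of_nonneg (fun o _ => hw o), hs, ENNReal.ofReal_one]
  have hint : ∀ f : Ω → ℝ, ∫ o, f o ∂P = ∑ o, w o * f o := by
    intro f
    rw [hP, MeasureTheory.integral_finset_sum_measure]
    · refine Finset.sum_congr rfl (fun o _ => ?_)
      rw [MeasureTheory.integral_smul_measure, MeasureTheory.integral_dirac,
        ENNReal.toReal_ofReal (hw o), smul_eq_mul]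
    · intro o _
      exact (MeasureTheory.Integrable.of_finite).smul_measure ENNReal.ofReal_ne_top
  have h1 := ProbabilityTheory.hasSubgaussianMGF_of_mem_Icc (μ := P) (X := X) (a := -B) (b := B)
    (measurable_of_finite X).aemeasurable
    (MeasureTheory.ae_of_all _ (fun o => abs_le.1 (hX o)))
  have h2 := h1.mgf_le t
  unfold ProbabilityTheory.mgf at h2
  rw [hint] at h2
  rw [hint X] at h2
  refine h2.trans (le_of_eq ?_)
  congr 1
  have h3 : ((‖B - -B‖₊ / 2 : NNReal) : ℝ) = B := by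
    push_cast
    rw [Real.norm_eq_abs, abs_of_nonneg (by linarith)]
    ring
  have h4 : ((((‖B - -B‖₊ / 2) ^ 2 : NNReal)) : ℝ) = B ^ 2 := by
    rw [NNReal.coe_pow, h3]
  rw [h4]
  ring

/-- Chernoff bound for the sum of `n` independent samples, one sided. -/
lemma chern_one {Ω : Type*} [Fintype Ω] [DecidableEq Ω] (w : Ω → ℝ) (hw : ∀ o, 0 ≤ w o)
    (hs : ∑ o, w o = 1)
    (X : Ω → ℝ) (B : ℝ) (hB : 0 < B) (hX : ∀ o, |X o| ≤ B) (n : ℕ) (δ : ℝ) (hδ : 0 ≤ δ) :
    ∑ p : Fin n → Ω, (∏ i, w (p i)) *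
      (if n * δ < ∑ i, (X (p i) - ∑ o, w o * X o) then 1 else 0)
      ≤ Real.exp (-(n * δ ^ 2 / (2 * B ^ 2))) := by
  set m := ∑ o, w o * X o with hm
  set t : ℝ := δ / B ^ 2 with ht
  have ht0 : 0 ≤ t := by positivity
  have h1 : ∀ p : Fin n → Ω, (∏ i, w (p i)) *
      (if n * δ < ∑ i, (X (p i) - m) then (1 : ℝ) else 0)
      ≤ Real.exp (-(t * (n * δ))) * ∏ i, (w (p i) * Real.exp (t * (X (p i) - m))) := by
    intro p
    rw [Finset.prod_mul_distrib, ← Real.exp_sum, ← Finset.mul_sum, mul_left_comm, ← Real.exp_add]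
    refine mul_le_mul_of_nonneg_left ?_ (Finset.prod_nonneg (fun i _ => hw _))
    split_ifs with h
    · apply Real.one_le_exp
      have := mul_le_mul_of_nonneg_left h.le ht0
      linarith
    · positivity
  refine (Finset.sum_le_sum (fun p _ => h1 p)).trans ?_
  rw [← Finset.mul_sum]
  have h2 : ∑ p : Fin n → Ω, ∏ i, (w (p i) * Real.exp (t * (X (p i) - m)))
      = (∑ o, w o * Real.exp (t * (X o - m))) ^ n := by
    have := Finset.prod_univ_sum (fun _ : Fin n => (univ : Finset Ω))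
      (fun _ o => w o * Real.exp (t * (X o - m)))
    rw [Fintype.piFinset_univ] at this
    rw [← this, Finset.prod_const, Finset.card_univ, Fintype.card_fin]
  rw [h2]
  have h3 : (∑ o, w o * Real.exp (t * (X o - m))) ^ n ≤ Real.exp (t ^ 2 * B ^ 2 / 2) ^ n :=
    pow_le_pow_left₀ (Finset.sum_nonneg (fun o _ => mul_nonneg (hw o) (Real.exp_pos _).le))
      (hoeff_one w hw hs X B hX t) n
  refine (mul_le_mul_of_nonneg_left h3 (Real.exp_pos _).le).trans ?_
  rw [← Real.exp_nat_mul, ← Real.exp_add]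
  apply Real.exp_le_exp.2
  rw [ht]
  apply le_of_eq
  field_simp
  ring

/-- Chernoff bound, two sided. -/
lemma chern_two {Ω : Type*} [Fintype Ω] [DecidableEq Ω] (w : Ω → ℝ) (hw : ∀ o, 0 ≤ w o)
    (hs : ∑ o, w o = 1)
    (X : Ω → ℝ) (B : ℝ) (hB : 0 < B) (hX : ∀ o, |X o| ≤ B) (n : ℕ) (δ : ℝ) (hδ : 0 ≤ δ) :
    ∑ p : Fin n → Ω, (∏ i, w (p i)) *
      (if n * δ < |∑ i, (X (p i) - ∑ o, w o * X o)| then 1 else 0)
      ≤ 2 * Real.exp (-(n * δ ^ 2 / (2 * B ^ 2))) := by
  have h1 := chern_one w hw hs X B hB hX n δ hδ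
  have h2 := chern_one w hw hs (fun o => - X o) B hB (fun o => by rw [abs_neg]; exact hX o) n δ hδ
  have h3 : ∀ p : Fin n → Ω, (∏ i, w (p i)) *
      (if n * δ < |∑ i, (X (p i) - ∑ o, w o * X o)| then (1 : ℝ) else 0)
      ≤ (∏ i, w (p i)) * (if n * δ < ∑ i, (X (p i) - ∑ o, w o * X o) then 1 else 0)
      + (∏ i, w (p i)) * (if n * δ < ∑ i, (- X (p i) - ∑ o, w o * (- X o)) then 1 else 0) := by
    intro p
    have hp : 0 ≤ ∏ i, w (p i) := Finset.prod_nonneg (fun i _ => hw _)
    rw [← mul_add]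
    refine mul_le_mul_of_nonneg_left ?_ hp
    have h4 : ∑ i, (- X (p i) - ∑ o, w o * (- X o)) = - ∑ i, (X (p i) - ∑ o, w o * X o) := by
      rw [← Finset.sum_neg_distrib]
      refine Finset.sum_congr rfl (fun i _ => ?_)
      simp only [mul_neg, Finset.sum_neg_distrib]
      ring
    rw [h4]
    by_cases h : n * δ < |∑ i, (X (p i) - ∑ o, w o * X o)|
    · rw [if_pos h]
      rcases lt_abs.1 h with h5 | h5
      · rw [if_pos h5]
        split_ifs <;> norm_num
      · rw [if_pos h5]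
        split_ifs <;> norm_num
    · rw [if_neg h]
      split_ifs <;> norm_num
  refine (Finset.sum_le_sum (fun p _ => h3 p)).trans ?_
  rw [Finset.sum_add_distrib]
  linarith

/-- The sum of the product weights is one. -/
lemma prod_weight {Ω : Type*} [Fintype Ω] [DecidableEq Ω] (w : Ω → ℝ) (hs : ∑ o, w o = 1)
    (n : ℕ) : ∑ p : Fin n → Ω, ∏ i, w (p i) = 1 := by
  have := Finset.prod_univ_sum (fun _ : Fin n => (univ : Finset Ω)) (fun _ o => w o)
  rw [Fintype.piFinset_univ] at this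
  rw [← this, Finset.prod_const, hs, one_pow]

/-- Averaging: a weighted average at most `c` is attained up to `c` somewhere. -/
lemma exists_le_avg {P : Type*} [Fintype P] (w : P → ℝ) (hw : ∀ p, 0 ≤ w p)
    (hs : ∑ p, w p = 1) (f : P → ℝ) (c : ℝ) (h : ∑ p, w p * f p ≤ c) : ∃ p, f p ≤ c := by
  by_contra hcon
  push Not at hcon
  have h1 : ∑ p, w p * c < ∑ p, w p * f p := by
    apply Finset.sum_lt_sum
    · intro p _
      exact mul_le_mul_of_nonneg_left (hcon p).le (hw p)
    · obtain ⟨p, -, hp⟩ : ∃ p ∈ (univ : Finset P), w p ≠ 0 := by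
        by_contra h
        push Not at h
        rw [Finset.sum_eq_zero h] at hs
        norm_num at hs
      exact ⟨p, mem_univ _, mul_lt_mul_of_pos_left (hcon p) (lt_of_le_of_ne (hw p) (Ne.symm hp))⟩
  rw [← Finset.sum_mul, hs, one_mul] at h1
  linarith

/-- Sampling: a finite family of functionals `X l` of a probability weight `w`; for some `n`-tuple
the empirical means are within `δ` of the true means except for few `l`. -/
theorem samp {Ω Λ : Type*} [Fintype Ω] (w : Ω → ℝ) (hw : ∀ o, 0 ≤ w o)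
    (hs : ∑ o, w o = 1) (L : Finset Λ) (X : Λ → Ω → ℝ) (B : ℝ) (hB : 0 < B)
    (hX : ∀ l o, |X l o| ≤ B) (n : ℕ) (hn : 0 < n) (δ : ℝ) (hδ : 0 ≤ δ) :
    ∃ p : Fin n → Ω, ((L.filter (fun l =>
      δ < |(∑ i, X l (p i)) / n - ∑ o, w o * X l o|)).card : ℝ)
      ≤ 2 * L.card * Real.exp (-(n * δ ^ 2 / (2 * B ^ 2))) := by
  classical
  have hn' : (0 : ℝ) < n := by exact_mod_cast hn
  apply exists_le_avg (fun p : Fin n → Ω => ∏ i, w (p i))
    (fun p => Finset.prod_nonneg (fun i _ => hw _)) (prod_weight w hs n)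
  have h1 : ∀ p : Fin n → Ω, ((L.filter (fun l =>
      δ < |(∑ i, X l (p i)) / n - ∑ o, w o * X l o|)).card : ℝ)
      = ∑ l ∈ L, (if n * δ < |∑ i, (X l (p i) - ∑ o, w o * X l o)| then (1 : ℝ) else 0) := by
    intro p
    rw [Finset.card_filter]
    push_cast
    refine Finset.sum_congr rfl (fun l _ => ?_)
    have h2 : ∑ i, (X l (p i) - ∑ o, w o * X l o)
        = n * ((∑ i, X l (p i)) / n - ∑ o, w o * X l o) := by
      rw [Finset.sum_sub_distrib, Finset.sum_const, Finset.card_univ, Fintype.card_fin,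
        nsmul_eq_mul]
      field_simp
    rw [h2, abs_mul, abs_of_pos hn']
    have h3 : (n * δ < n * |(∑ i, X l (p i)) / n - ∑ o, w o * X l o|) ↔
        δ < |(∑ i, X l (p i)) / n - ∑ o, w o * X l o| := mul_lt_mul_iff_right₀ hn'
    by_cases h4 : δ < |(∑ i, X l (p i)) / n - ∑ o, w o * X l o|
    · rw [if_pos h4, if_pos (h3.2 h4)]
    · rw [if_neg h4, if_neg (fun h => h4 (h3.1 h))]
  simp only [h1, Finset.mul_sum]
  rw [Finset.sum_comm]
  refine (Finset.sum_le_sum (fun l _ => chern_two w hw hs (X l) B hB (hX l) n δ hδ)).trans ?_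
  rw [Finset.sum_const, nsmul_eq_mul]
  apply le_of_eq
  ring

/-- Signed version: `e` on a finite set with `∑ |e| ≤ B`; for some `n` signed points the
functional `∑ e y * c l y` is approximated by `(B / n) ∑ ± c l (y i)` for all but few `l`. -/
theorem samp_l1 {Y Λ : Type*} [Fintype Y] [Nonempty Y] (e : Y → ℝ) (B : ℝ) (hB : 0 < B)
    (he : ∑ y, |e y| ≤ B) (L : Finset Λ) (c : Λ → Y → ℝ) (hc : ∀ l y, |c l y| ≤ 1)
    (n : ℕ) (hn : 0 < n) (δ : ℝ) (hδ : 0 ≤ δ) :
    ∃ p : Fin n → Y × Bool, ((L.filter (fun l =>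
      δ < |∑ y, e y * c l y - B / n * ∑ i, (if (p i).2 then (1 : ℝ) else -1) * c l (p i).1|)).card
        : ℝ) ≤ 2 * L.card * Real.exp (-(n * δ ^ 2 / (2 * B ^ 2))) := by
  classical
  obtain ⟨y0⟩ := ‹Nonempty Y›
  have hn' : (0 : ℝ) < n := by exact_mod_cast hn
  set r : ℝ := B - ∑ y, |e y| with hr
  have hr0 : 0 ≤ r := by linarith
  set w : Y × Bool → ℝ := fun q => (if q.2 then (|e q.1| + e q.1) / 2 else (|e q.1| - e q.1) / 2) / B
    + (if q.1 = y0 then r / (2 * B) else 0) with hwdef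
  have hw : ∀ q, 0 ≤ w q := by
    intro q
    rw [hwdef]
    have h1 : 0 ≤ |e q.1| + e q.1 := by linarith [neg_abs_le (e q.1)]
    have h2 : 0 ≤ |e q.1| - e q.1 := by linarith [le_abs_self (e q.1)]
    refine add_nonneg (div_nonneg ?_ hB.le) ?_
    · split_ifs <;> linarith
    · split_ifs <;> positivity
  have hsumB : ∀ f : Y × Bool → ℝ, ∑ q, f q = ∑ y, (f (y, true) + f (y, false)) := by
    intro f
    rw [Fintype.sum_prod_type]
    refine Finset.sum_congr rfl (fun y _ => ?_)
    rw [Fintype.sum_bool]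
  have hs : ∑ q, w q = 1 := by
    rw [hsumB]
    have h1 : ∀ y, w (y, true) + w (y, false) = |e y| / B + (if y = y0 then r / B else 0) := by
      intro y
      rw [hwdef]
      simp only [if_true, Bool.false_eq_true, if_false]
      split_ifs <;> field_simp <;> ring
    simp only [h1]
    rw [Finset.sum_add_distrib, ← Finset.sum_div, Finset.sum_ite_eq' univ y0, if_pos (mem_univ _),
      ← add_div, hr]
    rw [add_sub_cancel, div_self hB.ne']
  set X : Λ → Y × Bool → ℝ := fun l q => B * ((if q.2 then (1 : ℝ) else -1) * c l q.1) with hX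
  have hXB : ∀ l q, |X l q| ≤ B := by
    intro l q
    rw [hX]
    simp only
    rw [abs_mul, abs_mul, abs_of_pos hB]
    have h1 : |(if q.2 then (1 : ℝ) else -1)| = 1 := by split_ifs <;> norm_num
    rw [h1, one_mul]
    calc B * |c l q.1| ≤ B * 1 := mul_le_mul_of_nonneg_left (hc l q.1) hB.le
      _ = B := mul_one B
  obtain ⟨p, hp⟩ := samp w hw hs L X B hB hXB n hn δ hδ
  refine ⟨p, ?_⟩
  have hmean : ∀ l, ∑ q, w q * X l q = ∑ y, e y * c l y := by
    intro l
    rw [hsumB]
    refine Finset.sum_congr rfl (fun y _ => ?_)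
    rw [hwdef, hX]
    simp only [if_true, Bool.false_eq_true, if_false]
    split_ifs <;> field_simp <;> ring
  have hset : (L.filter (fun l =>
      δ < |∑ y, e y * c l y - B / n * ∑ i, (if (p i).2 then (1 : ℝ) else -1) * c l (p i).1|))
      = (L.filter (fun l => δ < |(∑ i, X l (p i)) / n - ∑ q, w q * X l q|)) := by
    apply Finset.filter_congr
    intro l _
    rw [hmean l]
    have h1 : (∑ i, X l (p i)) / n
        = B / n * ∑ i, (if (p i).2 then (1 : ℝ) else -1) * c l (p i).1 := by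
      rw [hX]
      simp only
      rw [← Finset.mul_sum]
      ring
    rw [h1, abs_sub_comm]
  rw [hset]
  exact hp

end Pool.Agent.H72.CP
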